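import Pool.Agent.W764.HL.Gen
import Pool.Agent.Y314.FD.Main

/-!
Windows whose orbit is uniformly distributed up to `ε`, and clusters of points with non-uniform
windows.
-/

set_option autoImplicit false

open MeasureTheory Filter Topology Set
open scoped ENNReal

namespace Pool.Agent.K3h58.WS

open Pool.Agent.W764.FB (T)
open Pool.Agent.W764.SH Pool.Agent.W764.HL

/-- all arcs are visited with at least the right frequency, up to `ε` -/
def Low (p q : ℕ) (ε X Y : ℝ) (x : T) : Prop :=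
  (win p q X Y).Nonempty ∧ ∀ c : T, ∀ r : ℝ, 0 ≤ r → r ≤ 1 / 2 →
    (2 * r - ε) * (win p q X Y).card ≤ (vis p q X Y x c r : ℝ)

lemma Low.mono {p q : ℕ} {ε ε' X Y : ℝ} {x : T} (h : Low p q ε X Y x) (he : ε ≤ ε') :
    Low p q ε' X Y x := by
  refine ⟨h.1, fun c r hr0 hr => le_trans ?_ (h.2 c r hr0 hr)⟩
  gcongr

/-- the norm of one half -/
lemma norm_half : ‖(((1 / 2 : ℝ)) : T)‖ = 1 / 2 := by
  have h4 := (AddCircle.norm_coe_eq_abs_iff (p := (1 : ℝ)) (x := 1 / 2) one_ne_zero).2 (by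
    rw [abs_one, abs_of_nonneg (by norm_num)])
  rw [h4, abs_of_nonneg (by norm_num)]

lemma norm_le_half (z : T) : ‖z‖ ≤ 1 / 2 := by
  have := AddCircle.norm_le_half_period (p := (1 : ℝ)) (x := z) one_ne_zero
  simpa using this

/-- opposite arcs -/
lemma norm_opp (z c : T) : ‖z - (c + (((1 / 2 : ℝ)) : T))‖ = 1 / 2 - ‖z - c‖ := by
  obtain ⟨t, ht1, ht2⟩ := Pool.Agent.H847R3.XpXq.exists_rep_norm (z - c)
  have hle := norm_le_half (z - c)
  have e : z - (c + (((1 / 2 : ℝ)) : T)) = ((t - 1 / 2 : ℝ) : T) := by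
    rw [AddCircle.coe_sub, ht1]; abel
  rw [e]
  rw [← ht2] at hle ⊢
  rcases le_total 0 t with h | h
  · rw [abs_of_nonneg h] at hle ⊢
    have h1 : |t - 1 / 2| ≤ |(1 : ℝ)| / 2 := by
      rw [abs_one, abs_le]; constructor <;> linarith
    rw [(AddCircle.norm_coe_eq_abs_iff (p := (1 : ℝ)) one_ne_zero).2 h1, abs_of_nonpos (by linarith)]
    ring
  · rw [abs_of_nonpos h] at hle ⊢
    have e2 : ((t - 1 / 2 : ℝ) : T) = ((t + 1 / 2 : ℝ) : T) := by
      rw [AddCircle.coe_sub, AddCircle.coe_add, sub_eq_add_neg]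
      congr 1
      rw [neg_eq_iff_add_eq_zero, ← AddCircle.coe_add]
      norm_num
    rw [e2]
    have h1 : |t + 1 / 2| ≤ |(1 : ℝ)| / 2 := by
      rw [abs_one, abs_le]; constructor <;> linarith
    rw [(AddCircle.norm_coe_eq_abs_iff (p := (1 : ℝ)) one_ne_zero).2 h1, abs_of_nonneg (by linarith)]
    ring

open Classical in
/-- lower bounds for all arcs imply upper bounds for all arcs -/
lemma Low.upper {p q : ℕ} {ε X Y : ℝ} {x : T} (h : Low p q ε X Y x) (hε : 0 ≤ ε) (c : T) {r : ℝ}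
    (hr0 : 0 ≤ r) (hr : r ≤ 1 / 2) :
    (vis p q X Y x c r : ℝ) ≤ (2 * r + ε) * (win p q X Y).card := by
  set W := win p q X Y with hW
  have hWR : (0 : ℝ) < W.card := by exact_mod_cast h.1.card_pos
  rcases hr.eq_or_lt with h1 | h1
  · have h2 : (vis p q X Y x c r : ℝ) ≤ W.card := by
      unfold vis
      exact_mod_cast Finset.card_filter_le _ _
    have h3 : (W.card : ℝ) ≤ (2 * r + ε) * W.card := by
      have : (1 : ℝ) ≤ 2 * r + ε := by rw [h1]; linarith
      exact le_mul_of_one_le_left hWR.le this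
    exact h2.trans h3
  · refine le_of_forall_pos_le_add fun e he => ?_
    set δ : ℝ := min (1 / 2 - r) (e / (2 * W.card)) with hδ
    have hδ0 : 0 < δ := lt_min (by linarith) (by positivity)
    have hδ1 : δ ≤ 1 / 2 - r := min_le_left _ _
    have hδ2 : δ ≤ e / (2 * W.card) := min_le_right _ _
    rw [le_div_iff₀ (by positivity)] at hδ2
    have h2 := h.2 (c + (((1 / 2 : ℝ)) : T)) (1 / 2 - r - δ) (by linarith) (by linarith)
    have h3 : vis p q X Y x c r + vis p q X Y x (c + (((1 / 2 : ℝ)) : T)) (1 / 2 - r - δ) ≤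
        W.card := by
      unfold vis
      rw [← Finset.card_union_of_disjoint]
      · exact Finset.card_le_card (Finset.union_subset (Finset.filter_subset _ _)
          (Finset.filter_subset _ _))
      · rw [Finset.disjoint_left]
        intro n hn hn'
        rw [Finset.mem_filter] at hn hn'
        have h4 := hn.2
        have h5 := hn'.2
        rw [norm_opp] at h5
        linarith
    have h3' : (vis p q X Y x c r : ℝ) + vis p q X Y x (c + (((1 / 2 : ℝ)) : T)) (1 / 2 - r - δ) ≤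
        W.card := by exact_mod_cast h3
    nlinarith

/-- **Few non-uniform points in a cluster.** -/
theorem few {p q : ℕ} (hp : 2 ≤ p) (hq : 2 ≤ q) (hpq : Nat.Coprime p q) {ε : ℝ} (hε : 0 < ε)
    {m : ℕ} (hm : 1 / ε < m) {K : ℝ} (hK : 1 ≤ K) : ∃ H0 : ℝ, 1 < H0 ∧ ∀ H : ℝ, H0 ≤ H →
      ∃ X0 : ℝ, 1 ≤ X0 ∧ ∀ X : ℝ, X0 ≤ X → ∀ x : Fin m → T,
        (∀ i j, i ≠ j → 1 / X ≤ ‖x i - x j‖ ∧ ‖x i - x j‖ ≤ K / X) →
        ∃ i, Low p q ε X (H * X) (x i) := by
  have hmR : (0 : ℝ) < m := lt_trans (by positivity) hm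
  have hm1 : 1 < m * ε := by
    rw [div_lt_iff₀ hε] at hm
    exact hm
  set ε' : ℝ := ε - 1 / m with hε'
  have hε'0 : 0 < ε' := by
    rw [hε', sub_pos, div_lt_iff₀ hmR]; linarith
  obtain ⟨H0, hH0, h⟩ := cluster hp hq hpq m hK hε'0
  refine ⟨H0, hH0, fun H hH => ?_⟩
  obtain ⟨δ, hδ, h2⟩ := h H hH
  refine ⟨max 1 (2 / δ), le_max_left _ _, fun X hX x hx => ?_⟩
  have hX1 : 1 ≤ X := (le_max_left _ _).trans hX
  have hX2 : 2 / δ ≤ X := (le_max_right _ _).trans hX
  have hX0 : 0 < X := by linarith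
  have hτ : 1 / X < δ := by
    rw [div_lt_iff₀ hX0]
    rw [div_le_iff₀ hδ] at hX2
    linarith
  obtain ⟨hne, h3⟩ := h2 (1 / X) (by positivity) hτ
  have e1 : (1 : ℝ) / (1 / X) = X := one_div_one_div X
  have e2 : H / (1 / X) = H * X := by rw [div_div_eq_mul_div, div_one]
  obtain ⟨α, hα1, hα2, hα3⟩ := h3 x (fun i j hij => ⟨(hx i j hij).1, by
    have := (hx i j hij).2
    rwa [mul_one_div]⟩)
  rw [e1, e2] at hne hα3
  by_contra hcon
  push Not at hcon
  have hWR : (0 : ℝ) < (win p q X (H * X)).card := by exact_mod_cast hne.card_pos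
  have key : ∀ i, 1 / (m : ℝ) < 1 - α i := by
    intro i
    have h4 := hcon i
    unfold Low at h4
    push Not at h4
    obtain ⟨c, r, hr0, hr, hlt⟩ := h4 hne
    have h5 := hα3 i c r hr
    have h6 : (2 * r * α i - ε') * (win p q X (H * X)).card <
        (2 * r - ε) * (win p q X (H * X)).card := by
      refine lt_of_le_of_lt h5 ?_
      unfold vis at hlt
      exact hlt
    have h7 := lt_of_mul_lt_mul_right h6 hWR.le
    have h8 : 2 * r * (1 - α i) ≤ 1 * (1 - α i) := by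
      have := (hα1 i).2
      gcongr
      linarith
    rw [hε'] at h7
    linarith
  have h4 : ∑ _i : Fin m, 1 / (m : ℝ) < ∑ i, (1 - α i) := by
    refine Finset.sum_lt_sum_of_nonempty ?_ fun i _ => key i
    have : 0 < m := by exact_mod_cast hmR
    exact ⟨⟨0, this⟩, Finset.mem_univ _⟩
  rw [Finset.sum_const, Finset.card_univ, Fintype.card_fin, nsmul_eq_mul,
    mul_one_div_cancel hmR.ne'] at h4
  linarith

end Pool.Agent.K3h58.WS
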