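import Mathlib

/-!
Nodes of a tree with few special levels.
-/

set_option autoImplicit false

namespace Pool.Agent.K3h58.WS

open Classical in
/-- the number of the levels `1, …, k` at which the ancestor of the node `a` of level `k` does not
belong to `B` -/
noncomputable def nb (Q : ℕ) (B : ℕ → Set ℕ) : ℕ → ℕ → ℕ
  | 0, _ => 0
  | k + 1, a => nb Q B k (a / Q) + if a ∈ B (k + 1) then 0 else 1

lemma sum_blocks (Q N : ℕ) (F : ℕ → ℝ) :
    ∑ a ∈ Finset.range (N * Q), F a = ∑ a ∈ Finset.range N, ∑ t ∈ Finset.range Q, F (a * Q + t) := by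
  induction N with
  | zero => simp
  | succ N ih => rw [add_mul, one_mul, Finset.sum_range_add, ih, Finset.sum_range_succ]

open Classical in
/-- the weighted count -/
lemma weight (Q : ℕ) (hQ : 1 ≤ Q) (B : ℕ → Set ℕ) (A D k : ℕ)
    (hB : ∀ j < k, ∀ a < A * Q ^ j,
      ((Finset.range Q).filter fun t => a * Q + t ∈ B (j + 1)).card ≤ D) :
    ∑ a ∈ Finset.range (A * Q ^ k), ((Q : ℝ) ^ nb Q B k a)⁻¹ ≤ A * ((D : ℝ) + 1) ^ k := by
  have hQR : (1 : ℝ) ≤ Q := by exact_mod_cast hQ
  induction k with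
  | zero => simp [nb]
  | succ k ih =>
    have h1 := ih fun j hj => hB j (by omega)
    rw [pow_succ, ← mul_assoc, sum_blocks]
    have h2 : ∀ a ∈ Finset.range (A * Q ^ k),
        ∑ t ∈ Finset.range Q, ((Q : ℝ) ^ nb Q B (k + 1) (a * Q + t))⁻¹ ≤
          ((Q : ℝ) ^ nb Q B k a)⁻¹ * ((D : ℝ) + 1) := by
      intro a ha
      have h3 := hB k (by omega) a (Finset.mem_range.1 ha)
      have h4 : ∀ t ∈ Finset.range Q, ((Q : ℝ) ^ nb Q B (k + 1) (a * Q + t))⁻¹ ≤
          ((Q : ℝ) ^ nb Q B k a)⁻¹ * ((if a * Q + t ∈ B (k + 1) then 1 else 0) + (Q : ℝ)⁻¹) := by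
        intro t ht
        have e : (a * Q + t) / Q = a := by
          rw [mul_comm, Nat.mul_add_div (by omega), Nat.div_eq_of_lt (Finset.mem_range.1 ht),
            add_zero]
        have e2 : nb Q B (k + 1) (a * Q + t) =
            nb Q B k a + if a * Q + t ∈ B (k + 1) then 0 else 1 := by
          rw [nb, e]
        rw [e2]
        have h5 : 0 ≤ ((Q : ℝ) ^ nb Q B k a)⁻¹ := by positivity
        have h6 : 0 ≤ (Q : ℝ)⁻¹ := by positivity
        split_ifs with h
        · rw [add_zero]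
          nlinarith
        · rw [pow_add, pow_one, mul_inv, zero_add]
      refine (Finset.sum_le_sum h4).trans ?_
      rw [← Finset.mul_sum]
      refine mul_le_mul_of_nonneg_left ?_ (by positivity)
      rw [Finset.sum_add_distrib, Finset.sum_const, Finset.card_range, nsmul_eq_mul,
        mul_inv_cancel₀ (by positivity)]
      have h5 : ∑ t ∈ Finset.range Q, (if a * Q + t ∈ B (k + 1) then (1 : ℝ) else 0) ≤ D := by
        rw [← Finset.sum_filter, Finset.sum_const, nsmul_eq_mul, mul_one]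
        exact_mod_cast h3
      linarith
    refine (Finset.sum_le_sum h2).trans ?_
    rw [← Finset.sum_mul, pow_succ, ← mul_assoc]
    exact mul_le_mul_of_nonneg_right h1 (by positivity)

open Classical in
/-- **Number of the nodes with few special levels.** -/
theorem tree_count (Q : ℕ) (hQ : 1 ≤ Q) (B : ℕ → Set ℕ) (A D k : ℕ)
    (hB : ∀ j < k, ∀ a < A * Q ^ j,
      ((Finset.range Q).filter fun t => a * Q + t ∈ B (j + 1)).card ≤ D) (g : ℕ) :
    (((Finset.range (A * Q ^ k)).filter fun a => nb Q B k a ≤ g).card : ℝ) ≤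
      (Q : ℝ) ^ g * (A * ((D : ℝ) + 1) ^ k) := by
  have hQR : (1 : ℝ) ≤ Q := by exact_mod_cast hQ
  have h1 := weight Q hQ B A D k hB
  have h2 : (((Finset.range (A * Q ^ k)).filter fun a => nb Q B k a ≤ g).card : ℝ) *
      ((Q : ℝ) ^ g)⁻¹ ≤ ∑ a ∈ Finset.range (A * Q ^ k), ((Q : ℝ) ^ nb Q B k a)⁻¹ := by
    rw [← nsmul_eq_mul]
    refine (Finset.card_nsmul_le_sum _ (fun a => ((Q : ℝ) ^ nb Q B k a)⁻¹) _ fun a ha => ?_).trans
      (Finset.sum_le_sum_of_subset_of_nonneg (Finset.filter_subset _ _)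
        fun a _ _ => by positivity)
    rw [Finset.mem_filter] at ha
    have h3 : (Q : ℝ) ^ nb Q B k a ≤ (Q : ℝ) ^ g := pow_le_pow_right₀ hQR ha.2
    exact inv_anti₀ (by positivity) h3
  have h3 := h2.trans h1
  rw [← div_eq_mul_inv, div_le_iff₀ (by positivity)] at h3
  linarith

/-- the levels along a path, as a sum -/
lemma nb_eq (Q : ℕ) (B : ℕ → Set ℕ) (k a : ℕ) [∀ i, DecidablePred (· ∈ B i)] :
    nb Q B k a = ((Finset.range k).filter fun i => a / Q ^ (k - (i + 1)) ∉ B (i + 1)).card := by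
  induction k generalizing a with
  | zero => simp [nb]
  | succ k ih =>
    rw [nb, ih, Finset.range_add_one, Finset.filter_insert]
    have h1 : ((Finset.range k).filter fun i => a / Q / Q ^ (k - (i + 1)) ∉ B (i + 1)) =
        ((Finset.range k).filter fun i => a / Q ^ (k + 1 - (i + 1)) ∉ B (i + 1)) := by
      refine Finset.filter_congr fun i hi => ?_
      rw [Finset.mem_range] at hi
      rw [Nat.div_div_eq_div_mul, ← pow_succ']
      have e : k - (i + 1) + 1 = k + 1 - (i + 1) := by omega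
      rw [e]
    rw [h1]
    have e : a / Q ^ (k + 1 - (k + 1)) = a := by simp
    rw [e]
    by_cases h : a ∈ B (k + 1)
    · simp [h]
    · rw [if_neg h, if_pos h, Finset.card_insert_of_notMem (by simp)]

end Pool.Agent.K3h58.WS
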