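import Pool.Agent.K3h58.WS.Base
import Pool.Agent.K3h58.WS.Tree

/-!
Points with few uniform windows are covered by few dyadic arcs.
-/

set_option autoImplicit false

open MeasureTheory Filter Topology Set
open scoped ENNReal

namespace Pool.Agent.K3h58.WS

open Pool.Agent.W764.FB (T)
open Pool.Agent.W764.SH Pool.Agent.W764.HL

lemma exists_rep (x : T) : ∃ t : ℝ, 0 ≤ t ∧ t < 1 ∧ ((t : ℝ) : T) = x := by
  obtain ⟨d0, rfl⟩ : ∃ d : ℝ, (d : T) = x := QuotientAddGroup.mk_surjective x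
  refine ⟨Int.fract d0, Int.fract_nonneg _, Int.fract_lt_one _, ?_⟩
  have h2 : Int.fract d0 = d0 - ⌊d0⌋ := rfl
  rw [h2, AddCircle.coe_sub]
  have h3 : ((⌊d0⌋ : ℝ) : T) = 0 := by
    rw [AddCircle.coe_eq_zero_iff]
    exact ⟨⌊d0⌋, by rw [zsmul_eq_mul, mul_one]⟩
  rw [h3, sub_zero]

/-- the representative in `[0, 1)` -/
noncomputable def rep (x : T) : ℝ := (exists_rep x).choose

lemma rep_nonneg (x : T) : 0 ≤ rep x := (exists_rep x).choose_spec.1
lemma rep_lt (x : T) : rep x < 1 := (exists_rep x).choose_spec.2.1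
lemma rep_coe (x : T) : ((rep x : ℝ) : T) = x := (exists_rep x).choose_spec.2.2

/-- the dyadic cell of level `j` -/
noncomputable def cell (j : ℕ) (x : T) : ℕ := ⌊rep x * 2 ^ j⌋₊

lemma cell_le (j : ℕ) (x : T) : (cell j x : ℝ) ≤ rep x * 2 ^ j :=
  Nat.floor_le (mul_nonneg (rep_nonneg x) (by positivity))

lemma lt_cell (j : ℕ) (x : T) : rep x * 2 ^ j < cell j x + 1 := Nat.lt_floor_add_one _

lemma cell_lt (j : ℕ) (x : T) : cell j x < 2 ^ j := by
  have h1 := cell_le j x
  have h2 : rep x * 2 ^ j < 1 * 2 ^ j := mul_lt_mul_of_pos_right (rep_lt x) (by positivity)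
  have h3 : (cell j x : ℝ) < ((2 ^ j : ℕ) : ℝ) := by push_cast; linarith
  exact_mod_cast h3

lemma cell_div (j i : ℕ) (x : T) : cell (j + i) x / 2 ^ i = cell j x := by
  unfold cell
  rw [← Nat.floor_div_natCast]
  congr 1
  push_cast
  rw [pow_add]
  field_simp

lemma cell_dist (j : ℕ) (x : T) : ‖x - (((cell j x : ℝ) / 2 ^ j : ℝ) : T)‖ ≤ (1 / 2) ^ j := by
  have e : x - (((cell j x : ℝ) / 2 ^ j : ℝ) : T) = ((rep x - (cell j x : ℝ) / 2 ^ j : ℝ) : T) := by
    rw [AddCircle.coe_sub, rep_coe]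
  rw [e, UnitAddCircle.norm_eq]
  have h7 := round_le (rep x - (cell j x : ℝ) / 2 ^ j) 0
  rw [Int.cast_zero, sub_zero] at h7
  refine h7.trans ?_
  have h1 := cell_le j x
  have h2 := lt_cell j x
  have h0 : (0 : ℝ) < 2 ^ j := by positivity
  have e2 : rep x - (cell j x : ℝ) / 2 ^ j = (rep x * 2 ^ j - cell j x) / 2 ^ j := by
    field_simp
  rw [e2, abs_div, abs_of_pos h0, div_pow, one_pow]
  gcongr
  rw [abs_le]
  constructor <;> linarith

/-- the cells of level `j` which contain a point with a non-uniform window of position `2 ^ j` -/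
def Bd (p q : ℕ) (ε H : ℝ) (j : ℕ) : Set ℕ :=
  {a | ∃ x : T, cell j x = a ∧ ¬ Low p q ε (2 ^ j) (H * 2 ^ j) x}

open Classical in
/-- few children are exceptional -/
lemma children {p q : ℕ} {ε : ℝ} {m L : ℕ} {H X0 : ℝ}
    (h : ∀ X : ℝ, X0 ≤ X → ∀ x : Fin m → T,
        (∀ i j, i ≠ j → 1 / X ≤ ‖x i - x j‖ ∧ ‖x i - x j‖ ≤ 2 ^ L / X) →
        ∃ i, Low p q ε X (H * X) (x i)) {j' : ℕ} (hj' : 1 ≤ j') (hX : X0 ≤ 2 ^ (j' + L)) (a : ℕ) :
    ((Finset.range (2 ^ L)).filter fun t => a * 2 ^ L + t ∈ Bd p q ε H (j' + L)).card ≤ 2 * m := by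
  set S := (Finset.range (2 ^ L)).filter fun t => a * 2 ^ L + t ∈ Bd p q ε H (j' + L) with hS
  have key : ∀ e : ℕ, (S.filter fun t => t % 2 = e).card < m ∨
      (S.filter fun t => t % 2 = e).card = 0 := by
    intro e
    by_contra hcon
    push Not at hcon
    obtain ⟨hcon, -⟩ := hcon
    set S' := S.filter fun t => t % 2 = e with hS'
    obtain ⟨f⟩ : Nonempty (Fin m ↪ S') := by
      refine Function.Embedding.nonempty_of_card_le ?_
      rw [Fintype.card_fin, Fintype.card_coe]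
      exact hcon
    have hf : ∀ i, (f i : ℕ) < 2 ^ L ∧ (f i : ℕ) % 2 = e ∧
        ∃ x : T, cell (j' + L) x = a * 2 ^ L + f i ∧
          ¬ Low p q ε (2 ^ (j' + L)) (H * 2 ^ (j' + L)) x := by
      intro i
      have h1 := Finset.mem_filter.1 (f i).2
      have h3 := Finset.mem_filter.1 h1.1
      exact ⟨Finset.mem_range.1 h3.1, h1.2, h3.2⟩
    choose h1 h2 x hx1 hx2 using hf
    have hpos : (0 : ℝ) < 2 ^ (j' + L) := by positivity
    have hsep : ∀ i j, i ≠ j → 1 / (2 : ℝ) ^ (j' + L) ≤ ‖x i - x j‖ ∧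
        ‖x i - x j‖ ≤ 2 ^ L / 2 ^ (j' + L) := by
      intro i j hij
      have hne : (f i : ℕ) ≠ f j := fun hh => hij (f.injective (Subtype.ext hh))
      have hpar : (2 : ℤ) ≤ |((f i : ℕ) : ℤ) - (f j : ℕ)| := by
        have h3 := h2 i
        have h4 := h2 j
        rcases abs_cases (((f i : ℕ) : ℤ) - (f j : ℕ)) with h5 | h5 <;> omega
      have hle : |((f i : ℕ) : ℤ) - (f j : ℕ)| ≤ 2 ^ L - 1 := by
        have h3 : ((f i : ℕ) : ℤ) < 2 ^ L := by exact_mod_cast h1 i
        have h4 : ((f j : ℕ) : ℤ) < 2 ^ L := by exact_mod_cast h1 j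
        rw [abs_le]
        constructor <;> omega
      have hparR : (2 : ℝ) ≤ |((f i : ℕ) : ℝ) - (f j : ℕ)| := by exact_mod_cast hpar
      have hleR : |((f i : ℕ) : ℝ) - (f j : ℕ)| ≤ 2 ^ L - 1 := by exact_mod_cast hle
      have hi1 := cell_le (j' + L) (x i)
      have hi2 := lt_cell (j' + L) (x i)
      have hj1 := cell_le (j' + L) (x j)
      have hj2 := lt_cell (j' + L) (x j)
      rw [hx1] at hi1 hi2 hj1 hj2
      push_cast at hi1 hi2 hj1 hj2
      set P : ℝ := 2 ^ (j' + L) with hP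
      set d : ℝ := rep (x i) - rep (x j) with hd
      have hdP : d * P = rep (x i) * P - rep (x j) * P := by rw [hd]; ring
      have habs1 : |((f i : ℕ) : ℝ) - (f j : ℕ)| - 1 ≤ |d * P| := by
        rcases abs_cases (((f i : ℕ) : ℝ) - (f j : ℕ)) with h5 | h5 <;>
          rcases abs_cases (d * P) with h6 | h6 <;> linarith
      have habs2 : |d * P| ≤ |((f i : ℕ) : ℝ) - (f j : ℕ)| + 1 := by
        rcases abs_cases (((f i : ℕ) : ℝ) - (f j : ℕ)) with h5 | h5 <;>
          rcases abs_cases (d * P) with h6 | h6 <;> linarith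
      rw [abs_mul, abs_of_pos hpos] at habs1 habs2
      have hd1 : 1 / P ≤ |d| := by rw [div_le_iff₀ hpos]; linarith
      have hd2 : |d| ≤ 2 ^ L / P := by rw [le_div_iff₀ hpos]; linarith
      have hd3 : (2 : ℝ) ^ L / P ≤ 1 / 2 := by
        rw [hP, pow_add, div_le_div_iff₀ (by positivity) (by norm_num)]
        have h6 : (2 : ℝ) ^ 1 ≤ 2 ^ j' := pow_le_pow_right₀ (by norm_num) hj'
        have h7 : (0 : ℝ) < 2 ^ L := by positivity
        nlinarith
      have e1 : x i - x j = ((d : ℝ) : T) := by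
        rw [hd, AddCircle.coe_sub, rep_coe, rep_coe]
      have e2 : ‖x i - x j‖ = |d| := by
        rw [e1]
        refine (AddCircle.norm_coe_eq_abs_iff (p := (1 : ℝ)) one_ne_zero).2 ?_
        rw [abs_one]
        linarith
      rw [e2]
      exact ⟨hd1, hd2⟩
    obtain ⟨i, hi⟩ := h (2 ^ (j' + L)) hX x hsep
    exact hx2 i hi
  have hm : ∀ e : ℕ, (S.filter fun t => t % 2 = e).card ≤ m := fun e => by
    rcases key e with h1 | h1 <;> omega
  have h3 : S = (S.filter fun t => t % 2 = 0) ∪ (S.filter fun t => t % 2 = 1) := by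
    ext t
    simp only [Finset.mem_union, Finset.mem_filter]
    have : t % 2 = 0 ∨ t % 2 = 1 := by omega
    tauto
  rw [h3]
  refine (Finset.card_union_le _ _).trans ?_
  have h4 := hm 0
  have h5 := hm 1
  omega

open Classical in
/-- the number of the positions `2 ^ j`, `j < n`, whose windows are uniform -/
noncomputable def count (p q : ℕ) (ε H : ℝ) (x : T) (n : ℕ) : ℕ :=
  ((Finset.range n).filter fun j => Low p q ε (2 ^ j) (H * 2 ^ j) x).card

end Pool.Agent.K3h58.WS
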