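import Pool.Agent.K3h58.WS.Small

/-!
Points which are generic along windows for a measure other than Lebesgue measure.
-/

set_option autoImplicit false

open MeasureTheory Filter Topology Set
open scoped ENNReal

namespace Pool.Agent.K3h58.WS

open Pool.Agent.W764.FB (T)
open Pool.Agent.W764.SH Pool.Agent.W764.HL

/-- lower bounds for arcs -/
lemma arc_lower2 {p q : ℕ} {μ : Measure T} [IsProbabilityMeasure μ] {x : T}
    (hg : WGen p q μ x)
    (hx : ∀ ε : ℝ, 0 < ε → ∀ H1 : ℕ, ∃ H : ℕ, H1 ≤ H ∧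
      ∀ X0 : ℝ, ∃ X : ℝ, X0 ≤ X ∧ Low p q ε X (H * X) x)
    (c : T) {r : ℝ} (hr : r ≤ 1 / 2) : 2 * r ≤ μ.real (Metric.closedBall c r) := by
  classical
  refine le_of_forall_pos_le_add fun e he => ?_
  rcases le_or_gt r (e / 4) with h0 | h0
  · have : 0 ≤ μ.real (Metric.closedBall c r) := measureReal_nonneg
    linarith
  set r' : ℝ := r - e / 4 with hr'
  have hr'0 : 0 ≤ r' := by linarith
  set f : T → ℝ := fun y => max 0 (min 1 (1 - (‖y - c‖ - r') / (e / 4))) with hf
  have hfc : Continuous f := by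
    rw [hf]
    exact continuous_const.max (continuous_const.min (continuous_const.sub
      (((continuous_id.sub continuous_const).norm.sub continuous_const).div_const _)))
  have hf0 : ∀ y, 0 ≤ f y := fun y => le_max_left _ _
  have hf1 : ∀ y, f y ≤ 1 := fun y => max_le zero_le_one (min_le_left _ _)
  have hfin : ∀ y, ‖y - c‖ ≤ r' → f y = 1 := by
    intro y hy
    simp only [hf]
    have h1 : (‖y - c‖ - r') / (e / 4) ≤ 0 := div_nonpos_of_nonpos_of_nonneg (by linarith) (by positivity)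
    rw [min_eq_left (by linarith), max_eq_right zero_le_one]
  have hfout : ∀ y, y ∉ Metric.closedBall c r → f y = 0 := by
    intro y hy
    rw [Metric.mem_closedBall, dist_eq_norm, not_le] at hy
    simp only [hf]
    have h1 : 1 ≤ (‖y - c‖ - r') / (e / 4) := by
      rw [le_div_iff₀ (by positivity)]; linarith
    have h2 : min 1 (1 - (‖y - c‖ - r') / (e / 4)) ≤ 0 := (min_le_right _ _).trans (by linarith)
    exact max_eq_left h2
  have hint : ∫ y, f y ∂μ ≤ μ.real (Metric.closedBall c r) := by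
    have hm : MeasurableSet (Metric.closedBall c r) := measurableSet_closedBall
    calc ∫ y, f y ∂μ ≤ ∫ y, (Metric.closedBall c r).indicator (fun _ => (1 : ℝ)) y ∂μ := by
          refine integral_mono (Pool.Agent.H847R3.XpXq.integrable_of_cont hfc μ)
            ((integrable_const 1).indicator hm) fun y => ?_
          by_cases hy : y ∈ Metric.closedBall c r
          · rw [indicator_of_mem hy]; exact hf1 y
          · rw [indicator_of_notMem hy, hfout y hy]
      _ = μ.real (Metric.closedBall c r) := by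
          rw [integral_indicator hm, setIntegral_const, smul_eq_mul, mul_one]
  obtain ⟨H1, hH1⟩ := hg f hfc (e / 4) (by positivity)
  obtain ⟨H3, hH31, hH2⟩ := hx (e / 4) (by positivity) H1
  obtain ⟨X0, hX0⟩ := hH1 H3 hH31
  obtain ⟨X, hX, hne, hv⟩ := hH2 X0
  have h1 := hX0 X hX
  have h2 := hv c r' hr'0 (by linarith)
  set W := win p q X (H3 * X) with hW
  have hWR : (0 : ℝ) < W.card := by exact_mod_cast hne.card_pos
  have h3 : (vis p q X (H3 * X) x c r' : ℝ) ≤ ∑ n ∈ W, f (n • x) := by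
    unfold vis
    rw [Finset.card_filter]
    push_cast
    refine Finset.sum_le_sum fun n _ => ?_
    split_ifs with hn
    · rw [hfin _ hn]
    · exact hf0 _
  rw [abs_le] at h1
  have h4 : (2 * r' - e / 4) * W.card ≤ (∫ y, f y ∂μ + e / 4) * W.card := by linarith [h1.2]
  have h5 := le_of_mul_le_mul_right h4 hWR
  linarith

/-- lower bounds for arcs determine Lebesgue measure -/
lemma eq_vol_of_arcs {μ : Measure T} [IsProbabilityMeasure μ]
    (h : ∀ c : T, ∀ r : ℝ, r ≤ 1 / 2 → 2 * r ≤ μ.real (Metric.closedBall c r)) :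
    μ = volume := by
  have hle : (volume : Measure T) ≤ μ := by
    refine Measure.le_intro fun s _ _ => ?_
    set v := IsUnifLocDoublingMeasure.vitaliFamily (volume : Measure T) 1 with hv
    refine v.measure_le_of_frequently_le (ρ := (volume : Measure T)) μ
      Measure.AbsolutelyContinuous.rfl s ?_
    intro x _
    have h2 : Tendsto (fun δ : ℝ => Metric.closedBall x δ) (𝓝[>] 0) (v.filterAt x) :=
      IsUnifLocDoublingMeasure.tendsto_closedBall_filterAt (volume : Measure T) (fun _ => x)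
        (fun δ => δ) tendsto_id (by
          filter_upwards [self_mem_nhdsWithin] with δ hδ
          rw [one_mul]
          exact Metric.mem_closedBall_self (le_of_lt hδ))
    refine h2.frequently (Eventually.frequently ?_)
    have h3 : ∀ᶠ δ : ℝ in 𝓝[>] 0, δ < 1 / 2 :=
      nhdsWithin_le_nhds (gt_mem_nhds (by norm_num))
    filter_upwards [self_mem_nhdsWithin, h3] with δ hδ hδ2
    have hδ0 : 0 < δ := hδ
    rw [AddCircle.volume_closedBall, min_eq_right (by linarith)]
    exact (ENNReal.ofReal_le_iff_le_toReal (measure_ne_top _ _)).2 (h x δ hδ2.le)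
  exact (Measure.eq_of_le_of_isProbabilityMeasure hle).symm

/-- a point which is generic for another measure has no uniform windows at all -/
lemma gen_not {p q : ℕ} {μ : Measure T} [IsProbabilityMeasure μ] {x : T}
    (hg : WGen p q μ x) (hμ : μ ≠ volume) :
    ∃ ε : ℝ, 0 < ε ∧ ∃ H1 : ℕ, ∀ H : ℕ, H1 ≤ H → ∃ X0 : ℝ, ∀ X : ℝ, X0 ≤ X →
      ¬ Low p q ε X (H * X) x := by
  by_contra hcon
  push Not at hcon
  exact hμ (eq_vol_of_arcs fun c r hr => arc_lower2 hg hcon c hr)

/-- the number of the uniform windows is bounded -/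
lemma gen_count {p q : ℕ} {μ : Measure T} [IsProbabilityMeasure μ] {x : T}
    (hg : WGen p q μ x) (hμ : μ ≠ volume) :
    ∃ ε : ℝ, 0 < ε ∧ ∃ H1 : ℕ, ∀ H : ℕ, H1 ≤ H → ∃ N : ℕ, ∀ n : ℕ, count p q ε H x n ≤ N := by
  classical
  obtain ⟨ε, hε, H1, h⟩ := gen_not hg hμ
  refine ⟨ε, hε, H1, fun H hH => ?_⟩
  obtain ⟨X0, hX0⟩ := h H hH
  obtain ⟨N, hN⟩ := pow_unbounded_of_one_lt X0 (show (1 : ℝ) < 2 by norm_num)
  refine ⟨N, fun n => ?_⟩
  unfold count
  refine (Finset.card_le_card (t := Finset.range N) fun j hj => ?_).trans (by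
    rw [Finset.card_range])
  rw [Finset.mem_filter] at hj
  rw [Finset.mem_range]
  by_contra hcon
  push Not at hcon
  exact hX0 (2 ^ j) (hN.le.trans (pow_le_pow_right₀ (by norm_num) hcon)) hj.2

/-- the frequency of the uniform windows of a generic point of another measure is zero -/
theorem freq_gen {p q : ℕ} {μ : Measure T} [IsProbabilityMeasure μ] {x : T}
    (hg : WGen p q μ x) (hμ : μ ≠ volume) : freq p q x = 0 := by
  refine le_antisymm ?_ (freq_nonneg p q x)
  obtain ⟨ε, hε, H1, h⟩ := gen_count hg hμ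
  refine csSup_le ⟨0, atLeast_zero p q x⟩ fun c hc => ?_
  have hc' : AtLeast p q x c := hc
  by_contra hpos
  push Not at hpos
  set e : ℝ := min ε (c / 2) with he
  have he0 : 0 < e := by positivity
  have hec : e ≤ c / 2 := min_le_right _ _
  obtain ⟨H0, hH0⟩ := hc' e he0
  obtain ⟨N, hN⟩ := h (max H0 H1) (le_max_right _ _)
  have hev := hH0 (max H0 H1) (le_max_left _ _)
  obtain ⟨n1, hn1⟩ := exists_nat_gt ((N : ℝ) / (c / 2))
  obtain ⟨n, hn, hnn⟩ := (hev.and (eventually_ge_atTop n1)).exists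
  have h1 : count p q e ((max H0 H1 : ℕ) : ℝ) x n ≤ N :=
    (count_mono (min_le_left _ _) _ _ _).trans (hN n)
  have h2 : (count p q e ((max H0 H1 : ℕ) : ℝ) x n : ℝ) ≤ N := by exact_mod_cast h1
  rw [div_lt_iff₀ (by positivity)] at hn1
  have h3 : (n1 : ℝ) ≤ n := by exact_mod_cast hnn
  have h4 : c / 2 * n ≤ (c - e) * n := by
    have : (0 : ℝ) ≤ n := Nat.cast_nonneg n
    nlinarith
  have h5 : (N : ℝ) < c / 2 * n := by nlinarith
  linarith

section
variable {p q : ℕ} (hp : 2 ≤ p) (hq : 2 ≤ q)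
include hp hq

/-- the points which are generic along windows for a measure other than Lebesgue measure form a
small set -/
theorem small_gen (hpq : Nat.Coprime p q) :
    Small {x : T | ∃ μ : Measure T, IsProbabilityMeasure μ ∧ μ ≠ volume ∧ WGen p q μ x} := by
  classical
  refine small_of_cover (ι := ℕ × ℕ × ℕ) fun d hd => ?_
  have h := fun k : ℕ => cover hp hq hpq (ε := 1 / ((k : ℝ) + 1)) (by positivity)
    (η := d / 2) (by positivity)
  choose H0 hH0 h using h
  refine ⟨fun w => {x : T | H0 w.1 ≤ (w.2.1 : ℝ) ∧ ∀ n : ℕ, w.2.2 ≤ n →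
    (count p q (1 / ((w.1 : ℝ) + 1)) w.2.1 x n : ℝ) ≤ d / 2 * n}, ?_, ?_⟩
  · rintro x ⟨μ, hμ1, hμ2, hg⟩
    obtain ⟨ε, hε, H1, h1⟩ := gen_count hg hμ2
    obtain ⟨k, hk⟩ := exists_nat_one_div_lt hε
    obtain ⟨H2, hH2⟩ := exists_nat_ge (H0 k)
    obtain ⟨N, hN⟩ := h1 (max H1 H2) (le_max_left _ _)
    obtain ⟨n0, hn0⟩ := exists_nat_ge ((N : ℝ) / (d / 2))
    refine mem_iUnion.2 ⟨(k, max H1 H2, n0), ?_, fun n hn => ?_⟩
    · refine hH2.trans ?_
      exact_mod_cast le_max_right H1 H2
    · have h2 : count p q (1 / ((k : ℝ) + 1)) ((max H1 H2 : ℕ) : ℝ) x n ≤ N :=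
        (count_mono hk.le _ _ _).trans (hN n)
      have h3 : (count p q (1 / ((k : ℝ) + 1)) ((max H1 H2 : ℕ) : ℝ) x n : ℝ) ≤ N := by
        exact_mod_cast h2
      refine h3.trans ?_
      rw [div_le_iff₀ (by positivity)] at hn0
      have h4 : (n0 : ℝ) ≤ n := by exact_mod_cast hn
      nlinarith
  · rintro ⟨k, H, n0⟩
    by_cases hH : H0 k ≤ (H : ℝ)
    · obtain ⟨C, hC, h2⟩ := h k H hH
      refine ⟨C + 2 ^ n0, fun n => ?_⟩
      rcases Nat.lt_or_ge n n0 with hn | hn
      · refine ⟨(Finset.range (2 ^ n)).image fun a : ℕ => (((a : ℝ) / 2 ^ n : ℝ) : T), ?_, ?_⟩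
        · have h3 : (((Finset.range (2 ^ n)).image
              fun a : ℕ => (((a : ℝ) / 2 ^ n : ℝ) : T)).card : ℝ) ≤ 2 ^ n := by
            have := Finset.card_image_le (s := Finset.range (2 ^ n))
              (f := fun a : ℕ => (((a : ℝ) / 2 ^ n : ℝ) : T))
            rw [Finset.card_range] at this
            exact_mod_cast this
          have h4 : (2 : ℝ) ^ n ≤ 2 ^ n0 := pow_le_pow_right₀ (by norm_num) hn.le
          have h5 : (1 : ℝ) ≤ (2 : ℝ) ^ (d * n) := Real.one_le_rpow (by norm_num) (by positivity)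
          calc _ ≤ (2 : ℝ) ^ n := h3
            _ ≤ (C + 2 ^ n0) * 1 := by linarith
            _ ≤ _ := by gcongr
        · intro x _
          exact ⟨_, Finset.mem_image_of_mem _ (Finset.mem_range.2 (cell_lt n x)), cell_dist n x⟩
      · obtain ⟨F, hF1, hF2⟩ := h2 (d / 2) (by positivity) n
        refine ⟨F.image fun a : ℕ => (((a : ℝ) / 2 ^ n : ℝ) : T), ?_, ?_⟩
        · have h3 : ((F.image fun a : ℕ => (((a : ℝ) / 2 ^ n : ℝ) : T)).card : ℝ) ≤ F.card := by
            exact_mod_cast Finset.card_image_le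
          refine h3.trans (hF1.trans ?_)
          rw [add_halves]
          gcongr
          linarith [show (0 : ℝ) < 2 ^ n0 by positivity]
        · intro x hx
          exact ⟨_, Finset.mem_image_of_mem _ (hF2 x (hx.2 n hn)), cell_dist n x⟩
    · refine ⟨1, fun n => ⟨∅, by simp; positivity, fun x hx => absurd hx.1 hH⟩⟩

/-- measures without mass on sets of small dimension -/
theorem measure_freq (hpq : Nat.Coprime p q) {s : ℝ} (ν : Measure T)
    (hν : ∀ E : Set T, dimH E < ENNReal.ofReal s → ν E = 0) :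
    ∀ᵐ x ∂ν, s ≤ freq p q x := by
  rw [ae_iff]
  rcases le_or_gt s 0 with hs | hs
  · have : {x : T | ¬ s ≤ freq p q x} = ∅ := by
      rw [Set.eq_empty_iff_forall_notMem]
      intro x hx
      exact hx (hs.trans (freq_nonneg p q x))
    rw [this, measure_empty]
  have hsub : {x : T | ¬ s ≤ freq p q x} ⊆
      ⋃ k : ℕ, {x : T | freq p q x ≤ s - s / ((k : ℝ) + 1)} := by
    intro x hx
    have hx' : freq p q x < s := not_le.1 hx
    have h1 : 0 < (s - freq p q x) / s := div_pos (by linarith) hs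
    obtain ⟨k, hk⟩ := exists_nat_one_div_lt h1
    refine mem_iUnion.2 ⟨k, ?_⟩
    have h2 : s / ((k : ℝ) + 1) = s * (1 / ((k : ℝ) + 1)) := by ring
    have h3 : s * (1 / ((k : ℝ) + 1)) < s * ((s - freq p q x) / s) :=
      mul_lt_mul_of_pos_left hk hs
    have h4 : s * ((s - freq p q x) / s) = s - freq p q x := by field_simp
    show freq p q x ≤ s - s / ((k : ℝ) + 1)
    linarith
  refine measure_mono_null hsub (measure_iUnion_null fun k => hν _ ?_)
  have hk0 : (0 : ℝ) < (k : ℝ) + 1 := by positivity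
  have h1 : 0 ≤ s - s / ((k : ℝ) + 1) := by
    rw [sub_nonneg, div_le_iff₀ hk0]
    have : (0 : ℝ) ≤ k := Nat.cast_nonneg k
    nlinarith
  refine (dim_upper hp hq hpq h1).trans_lt ?_
  rw [ENNReal.ofReal_lt_ofReal_iff_of_nonneg h1]
  have : 0 < s / ((k : ℝ) + 1) := by positivity
  linarith

end

end Pool.Agent.K3h58.WS
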