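import Pool.Agent.K3h58.WS.Gen

/-!
Invariant measures: the frequency of the uniform windows is almost everywhere zero or one.
-/

set_option autoImplicit false

open MeasureTheory Filter Topology Set
open scoped ENNReal

namespace Pool.Agent.K3h58.WS

open Pool.Agent.W764.FB Pool.Agent.W764.SH Pool.Agent.W764.HL

/-- invariance under the semigroup -/
lemma inv_pow {p q : ℕ} {ν : Measure T} (hip : MeasurePreserving (fun x : T => p • x) ν ν)
    (hiq : MeasurePreserving (fun x : T => q • x) ν ν) (a b : ℕ) :
    MeasurePreserving (fun x : T => (p ^ a * q ^ b) • x) ν ν := by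
  have h1 : ∀ a : ℕ, MeasurePreserving (fun x : T => p ^ a • x) ν ν := by
    intro a
    induction a with
    | zero => simp only [pow_zero, one_smul]; exact MeasurePreserving.id ν
    | succ a ih =>
      have h := hip.comp ih
      have e : ((fun x : T => p • x) ∘ fun x : T => p ^ a • x) = fun x : T => p ^ (a + 1) • x := by
        funext x
        simp only [Function.comp]
        rw [← mul_smul, pow_succ, mul_comm]
      rwa [e] at h
  induction b with
  | zero => simp only [pow_zero, mul_one]; exact h1 a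
  | succ b ih =>
    have h := hiq.comp ih
    have e : ((fun x : T => q • x) ∘ fun x : T => (p ^ a * q ^ b) • x) =
        fun x : T => (p ^ a * q ^ (b + 1)) • x := by
      funext x
      simp only [Function.comp]
      rw [← mul_smul]
      congr 1
      ring
    rwa [e] at h

open Classical in
/-- the mass of the points with a uniform window bounds the mass of the arcs -/
lemma arc_mass {p q : ℕ} {ν : Measure T} [IsFiniteMeasure ν]
    (hip : MeasurePreserving (fun x : T => p • x) ν ν)
    (hiq : MeasurePreserving (fun x : T => q • x) ν ν) {ε X Y : ℝ} (c : T) {r : ℝ} (hr0 : 0 ≤ r)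
    (hr : r ≤ 1 / 2) :
    (2 * r - ε) * ν.real {x : T | Low p q ε X Y x} ≤ ν.real (Metric.closedBall c r) := by
  rcases le_or_gt (2 * r - ε) 0 with hneg | hpos
  · exact (mul_nonpos_of_nonpos_of_nonneg hneg measureReal_nonneg).trans measureReal_nonneg
  set W := win p q X Y with hW
  rcases Finset.eq_empty_or_nonempty W with hemp | hne
  · have : {x : T | Low p q ε X Y x} = ∅ := by
      rw [Set.eq_empty_iff_forall_notMem]
      rintro x ⟨h1, -⟩
      rw [← hW, hemp] at h1
      exact Finset.not_nonempty_empty h1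
    rw [this, measureReal_empty, mul_zero]
    exact measureReal_nonneg
  have hWR : (0 : ℝ) < W.card := by exact_mod_cast hne.card_pos
  set B := Metric.closedBall c r with hB
  have hBm : MeasurableSet B := measurableSet_closedBall
  have hpre : ∀ n ∈ W, MeasurableSet {x : T | n • x ∈ B} ∧ ν.real {x : T | n • x ∈ B} = ν.real B := by
    intro n hn
    rw [hW, mem_win] at hn
    obtain ⟨⟨a, b, rfl⟩, -⟩ := hn
    have h := inv_pow hip hiq a b
    refine ⟨h.measurable hBm, ?_⟩
    rw [measureReal_def, measureReal_def]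
    congr 1
    exact h.measure_preimage hBm.nullMeasurableSet
  -- the counting function
  set f : T → ℝ := fun x => ∑ n ∈ W, ({x : T | n • x ∈ B}.indicator (fun _ => (1 : ℝ)) x) with hf
  have hfi : Integrable f ν := integrable_finsetSum _ fun n hn =>
    (integrable_const (1 : ℝ)).indicator (hpre n hn).1
  have hf0 : ∀ x, 0 ≤ f x := fun x => Finset.sum_nonneg fun n _ =>
    Set.indicator_nonneg (fun _ _ => zero_le_one) x
  have hfint : ∫ x, f x ∂ν = W.card * ν.real B := by
    rw [hf, integral_finsetSum _ fun n hn => (integrable_const (1 : ℝ)).indicator (hpre n hn).1]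
    rw [Finset.sum_congr rfl fun n hn => ?_, Finset.sum_const, nsmul_eq_mul]
    rw [integral_indicator (hpre n hn).1, setIntegral_const, smul_eq_mul, mul_one, (hpre n hn).2]
  have hfv : ∀ x, f x = vis p q X Y x c r := by
    intro x
    simp only [hf]
    unfold vis
    rw [Finset.card_filter]
    push_cast
    refine Finset.sum_congr rfl fun n _ => ?_
    by_cases h : n • x ∈ B
    · rw [Set.indicator_of_mem (show x ∈ {x : T | n • x ∈ B} from h), if_pos]
      rw [hB, Metric.mem_closedBall, dist_eq_norm] at h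
      exact h
    · rw [Set.indicator_of_notMem (show x ∉ {x : T | n • x ∈ B} from h), if_neg]
      rw [hB, Metric.mem_closedBall, dist_eq_norm] at h
      exact h
  have hmk := mul_meas_ge_le_integral_of_nonneg (Eventually.of_forall hf0) hfi
    ((2 * r - ε) * W.card)
  have hsub : {x : T | Low p q ε X Y x} ⊆ {x : T | (2 * r - ε) * W.card ≤ f x} := by
    intro x hx
    show (2 * r - ε) * W.card ≤ f x
    rw [hfv]
    exact hx.2 c r hr0 hr
  have h1 : ν.real {x : T | Low p q ε X Y x} ≤ ν.real {x : T | (2 * r - ε) * W.card ≤ f x} :=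
    measureReal_mono hsub (measure_ne_top _ _)
  have h2 : (2 * r - ε) * W.card * ν.real {x : T | Low p q ε X Y x} ≤ W.card * ν.real B := by
    rw [← hfint]
    refine le_trans ?_ hmk
    exact mul_le_mul_of_nonneg_left h1 (by positivity)
  have h3 : W.card * ((2 * r - ε) * ν.real {x : T | Low p q ε X Y x}) ≤ W.card * ν.real B := by
    linarith
  exact le_of_mul_le_mul_left h3 hWR

/-- if the mass of the points with uniform windows is not small, the measure dominates a multiple
of Lebesgue measure -/
lemma vol_le {ν : Measure T} [IsFiniteMeasure ν] {c0 : ℝ} (hc0 : 0 ≤ c0)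
    (h : ∀ c : T, ∀ r : ℝ, 0 ≤ r → r ≤ 1 / 2 → c0 * (2 * r) ≤ ν.real (Metric.closedBall c r))
    (s : Set T) : ENNReal.ofReal c0 * (volume : Measure T) s ≤ ν s := by
  set v := IsUnifLocDoublingMeasure.vitaliFamily (volume : Measure T) 1 with hv
  have h1 := v.measure_le_of_frequently_le (ρ := ENNReal.ofReal c0 • (volume : Measure T)) ν
    Measure.smul_absolutelyContinuous s ?_
  · rwa [Measure.smul_apply, smul_eq_mul] at h1
  · intro x _
    have h2 : Tendsto (fun δ : ℝ => Metric.closedBall x δ) (𝓝[>] 0) (v.filterAt x) :=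
      IsUnifLocDoublingMeasure.tendsto_closedBall_filterAt (volume : Measure T) (fun _ => x)
        (fun δ => δ) tendsto_id (by
          filter_upwards [self_mem_nhdsWithin] with δ hδ
          rw [one_mul]
          exact Metric.mem_closedBall_self (le_of_lt hδ))
    refine h2.frequently (Eventually.frequently ?_)
    have h3 : ∀ᶠ δ : ℝ in 𝓝[>] 0, δ < 1 / 2 :=
      nhdsWithin_le_nhds (gt_mem_nhds (by norm_num))
    filter_upwards [self_mem_nhdsWithin, h3] with δ hδ hδ2
    have hδ0 : 0 < δ := hδ
    rw [Measure.smul_apply, smul_eq_mul, AddCircle.volume_closedBall, min_eq_right (by linarith),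
      ← ENNReal.ofReal_mul hc0]
    exact (ENNReal.ofReal_le_iff_le_toReal (measure_ne_top _ _)).2 (h x δ hδ0.le hδ2.le)

/-- the mass of the points with a uniform window is small if the measure does not dominate a
multiple of Lebesgue measure -/
lemma mass_small {p q : ℕ} {ν : Measure T} [IsFiniteMeasure ν]
    (hip : MeasurePreserving (fun x : T => p • x) ν ν)
    (hiq : MeasurePreserving (fun x : T => q • x) ν ν)
    (hno : ∀ c0 : ℝ, 0 < c0 → ¬ ∀ s : Set T, ENNReal.ofReal c0 * (volume : Measure T) s ≤ ν s)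
    {c0 : ℝ} (hc0 : 0 < c0) : ∃ ε : ℝ, 0 < ε ∧ ∀ X Y : ℝ,
      ν.real {x : T | Low p q ε X Y x} ≤ c0 := by
  by_contra hcon
  push Not at hcon
  refine hno c0 hc0 (vol_le hc0.le fun c r hr0 hr => ?_)
  refine le_of_forall_pos_le_add fun e he => ?_
  obtain ⟨X, Y, hXY⟩ := hcon (e / c0) (by positivity)
  have h1 := arc_mass hip hiq (ε := e / c0) (X := X) (Y := Y) c hr0 hr
  rcases le_or_gt (2 * r - e / c0) 0 with h2 | h2
  · have h3 : c0 * (2 * r - e / c0) ≤ 0 := mul_nonpos_of_nonneg_of_nonpos hc0.le h2
    have h4 : c0 * (2 * r - e / c0) = c0 * (2 * r) - e := by field_simp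
    have h5 : 0 ≤ ν.real (Metric.closedBall c r) := measureReal_nonneg
    linarith
  · have h3 : (2 * r - e / c0) * c0 ≤ (2 * r - e / c0) *
        ν.real {x : T | Low p q (e / c0) X Y x} := mul_le_mul_of_nonneg_left hXY.le h2.le
    have h4 : (2 * r - e / c0) * c0 = c0 * (2 * r) - e := by field_simp
    linarith

open Classical in
/-- Markov's inequality for the number of the uniform windows -/
lemma markov {p q : ℕ} {ν : Measure T} [IsFiniteMeasure ν] {ε H c0 : ℝ}
    (h : ∀ X Y : ℝ, ν.real {x : T | Low p q ε X Y x} ≤ c0) {t : ℝ} (ht : 0 < t) {n : ℕ}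
    (hn : 1 ≤ n) : t * ν.real {x : T | t * n ≤ count p q ε H x n} ≤ c0 := by
  set G : ℕ → Set T := fun j => {x : T | Low p q ε (2 ^ j) (H * 2 ^ j) x} with hG
  set M : ℕ → Set T := fun j => toMeasurable ν (G j) with hM
  have hMm : ∀ j, MeasurableSet (M j) := fun j => measurableSet_toMeasurable _ _
  have hMG : ∀ j, ν.real (M j) ≤ c0 := by
    intro j
    rw [measureReal_def, hM]
    simp only
    rw [measure_toMeasurable]
    exact h _ _
  have hnR : (0 : ℝ) < n := by exact_mod_cast hn
  set f : T → ℝ := fun x => ∑ j ∈ Finset.range n, ((M j).indicator (fun _ => (1 : ℝ)) x) with hf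
  have hfi : Integrable f ν := integrable_finsetSum _ fun j _ =>
    (integrable_const (1 : ℝ)).indicator (hMm j)
  have hf0 : ∀ x, 0 ≤ f x := fun x => Finset.sum_nonneg fun n _ =>
    Set.indicator_nonneg (fun _ _ => zero_le_one) x
  have hfint : ∫ x, f x ∂ν ≤ n * c0 := by
    rw [hf, integral_finsetSum _ fun j _ => (integrable_const (1 : ℝ)).indicator (hMm j)]
    refine (Finset.sum_le_card_nsmul _ _ c0 fun j _ => ?_).trans (by
      rw [Finset.card_range, nsmul_eq_mul])
    rw [integral_indicator (hMm j), setIntegral_const, smul_eq_mul, mul_one]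
    exact hMG j
  have hcf : ∀ x, (count p q ε H x n : ℝ) ≤ f x := by
    intro x
    unfold count
    rw [Finset.card_filter]
    push_cast
    refine Finset.sum_le_sum fun j _ => ?_
    split_ifs with hj
    · rw [Set.indicator_of_mem (subset_toMeasurable ν (G j) hj)]
    · exact Set.indicator_nonneg (fun _ _ => zero_le_one) x
  have hmk := mul_meas_ge_le_integral_of_nonneg (Eventually.of_forall hf0) hfi (t * n)
  have h1 : ν.real {x : T | t * n ≤ count p q ε H x n} ≤ ν.real {x : T | t * n ≤ f x} :=
    measureReal_mono (fun x hx => le_trans hx (hcf x)) (measure_ne_top _ _)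
  have h2 : (t * n) * ν.real {x : T | t * n ≤ count p q ε H x n} ≤ n * c0 :=
    (mul_le_mul_of_nonneg_left h1 (by positivity)).trans (hmk.trans hfint)
  have h3 : n * (t * ν.real {x : T | t * n ≤ count p q ε H x n}) ≤ n * c0 := by linarith
  exact le_of_mul_le_mul_left h3 hnR

/-- **The frequency is zero for the singular part.** -/
theorem freq_zero {p q : ℕ} {ν : Measure T} [IsFiniteMeasure ν]
    (hip : MeasurePreserving (fun x : T => p • x) ν ν)
    (hiq : MeasurePreserving (fun x : T => q • x) ν ν)
    (hno : ∀ c0 : ℝ, 0 < c0 → ¬ ∀ s : Set T, ENNReal.ofReal c0 * (volume : Measure T) s ≤ ν s) :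
    ∀ᵐ x ∂ν, freq p q x = 0 := by
  have key : ∀ c : ℝ, 0 < c → ν {x : T | AtLeast p q x c} = 0 := by
    intro c hc
    have hbound : ∀ e : ℝ, 0 < e → ν {x : T | AtLeast p q x c} ≤ ENNReal.ofReal e := by
      intro e he
      obtain ⟨ε0, hε0, hε⟩ := mass_small hip hiq hno (c0 := e * (c / 2)) (by positivity)
      set ε : ℝ := min ε0 (c / 2) with hεdef
      have hεpos : 0 < ε := by positivity
      have hεc : ε ≤ c / 2 := min_le_right _ _
      have hmass : ∀ X Y : ℝ, ν.real {x : T | Low p q ε X Y x} ≤ e * (c / 2) := fun X Y =>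
        (measureReal_mono (fun x hx => Low.mono hx (min_le_left _ _)) (measure_ne_top _ _)).trans
          (hε X Y)
      -- one ratio
      have h1 : ∀ H : ℕ, ν {x : T | ∀ᶠ n : ℕ in atTop, c / 2 * n ≤ (count p q ε H x n : ℝ)} ≤
          ENNReal.ofReal e := by
        intro H
        have hsub : {x : T | ∀ᶠ n : ℕ in atTop, c / 2 * n ≤ (count p q ε H x n : ℝ)} ⊆
            ⋃ N : ℕ, {x : T | ∀ n : ℕ, N ≤ n → c / 2 * n ≤ (count p q ε H x n : ℝ)} := by
          intro x hx
          obtain ⟨N, hN⟩ := eventually_atTop.1 hx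
          exact mem_iUnion.2 ⟨N, hN⟩
        refine (measure_mono hsub).trans ?_
        have hmono : Monotone fun N : ℕ =>
            {x : T | ∀ n : ℕ, N ≤ n → c / 2 * n ≤ (count p q ε H x n : ℝ)} :=
          fun N N' hNN' x (hx : ∀ n : ℕ, N ≤ n → c / 2 * n ≤ (count p q ε H x n : ℝ)) n hn =>
            hx n (hNN'.trans hn)
        rw [hmono.measure_iUnion]
        refine iSup_le fun N => ?_
        have h2 := markov (H := (H : ℝ)) hmass (t := c / 2) (by positivity) (n := max N 1)
          (le_max_right _ _)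
        have h3 : ν.real {x : T | c / 2 * ((max N 1 : ℕ) : ℝ) ≤ count p q ε H x (max N 1)} ≤ e := by
          have h4 : c / 2 * ν.real {x : T | c / 2 * ((max N 1 : ℕ) : ℝ) ≤
              count p q ε H x (max N 1)} ≤ c / 2 * e := by linarith
          exact le_of_mul_le_mul_left h4 (by positivity)
        refine (measure_mono (t := {x : T | c / 2 * ((max N 1 : ℕ) : ℝ) ≤
          count p q ε H x (max N 1)})
          fun x (hx : ∀ n : ℕ, N ≤ n → c / 2 * n ≤ (count p q ε H x n : ℝ)) =>
            hx _ (le_max_left _ _)).trans ?_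
        rw [← ENNReal.ofReal_toReal (measure_ne_top ν _)]
        exact ENNReal.ofReal_le_ofReal h3
      have hsub : {x : T | AtLeast p q x c} ⊆
          ⋃ H0 : ℕ, {x : T | ∀ H : ℕ, H0 ≤ H → ∀ᶠ n : ℕ in atTop,
            c / 2 * n ≤ (count p q ε H x n : ℝ)} := by
        intro x hx
        obtain ⟨H0, hH0⟩ := hx ε hεpos
        refine mem_iUnion.2 ⟨H0, fun H hH => (hH0 H hH).mono fun n hn => le_trans ?_ hn⟩
        exact mul_le_mul_of_nonneg_right (by linarith) (Nat.cast_nonneg n)
      refine (measure_mono hsub).trans ?_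
      have hmono : Monotone fun H0 : ℕ => {x : T | ∀ H : ℕ, H0 ≤ H → ∀ᶠ n : ℕ in atTop,
          c / 2 * n ≤ (count p q ε H x n : ℝ)} :=
        fun N N' hNN' x (hx : ∀ H : ℕ, N ≤ H → ∀ᶠ n : ℕ in atTop,
          c / 2 * n ≤ (count p q ε H x n : ℝ)) H hH => hx H (hNN'.trans hH)
      rw [hmono.measure_iUnion]
      refine iSup_le fun H0 => ?_
      refine (measure_mono (t := {x : T | ∀ᶠ n : ℕ in atTop,
        c / 2 * n ≤ (count p q ε H0 x n : ℝ)})
        fun x (hx : ∀ H : ℕ, H0 ≤ H → ∀ᶠ n : ℕ in atTop,
          c / 2 * n ≤ (count p q ε H x n : ℝ)) => hx H0 le_rfl).trans (h1 H0)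
    have h2 : Tendsto (fun k : ℕ => ENNReal.ofReal (1 / ((k : ℝ) + 1))) atTop
        (𝓝 (ENNReal.ofReal 0)) :=
      ENNReal.tendsto_ofReal tendsto_one_div_add_atTop_nhds_zero_nat
    rw [ENNReal.ofReal_zero] at h2
    exact le_antisymm (ge_of_tendsto' h2 fun k => hbound _ (by positivity)) zero_le
  rw [ae_iff]
  refine measure_mono_null (t := ⋃ k : ℕ, {x : T | AtLeast p q x (1 / ((k : ℝ) + 1))}) ?_
    (measure_iUnion_null fun k => key _ (by positivity))
  intro x hx
  have hpos : 0 < freq p q x := lt_of_le_of_ne (freq_nonneg p q x) (Ne.symm hx)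
  obtain ⟨k, hk⟩ := exists_nat_one_div_lt hpos
  exact mem_iUnion.2 ⟨k, atLeast_iff.2 hk.le⟩

section
variable {p q : ℕ} (hp : 2 ≤ p) (hq : 2 ≤ q)
include hp hq

omit hp hq in
/-- sets of dimension less than one are null -/
lemma null_of_dimH {E : Set T} (hE : dimH E < 1) : (volume : Measure T) E = 0 := by
  have h1 : ((2 : ℝ≥0∞)⁻¹ • (volume : Measure T)) ≤ Measure.hausdorffMeasure (1 : ℝ) := by
    refine Measure.le_hausdorffMeasure 1 _ 1 one_pos fun s _ => ?_
    rw [ENNReal.rpow_one, Measure.smul_apply, smul_eq_mul]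
    rcases s.eq_empty_or_nonempty with rfl | ⟨x, hx⟩
    · simp
    have hfin : Metric.ediam s ≠ ∞ := by
      refine ne_top_of_le_ne_top ?_ (Metric.ediam_mono (subset_univ s))
      exact (isCompact_univ.isBounded.ediam_ne_top)
    have h2 : s ⊆ Metric.closedBall x (Metric.ediam s).toReal := by
      intro y hy
      rw [Metric.mem_closedBall, dist_edist]
      exact ENNReal.toReal_mono hfin (Metric.edist_le_ediam_of_mem hy hx)
    have h3 : (volume : Measure T) s ≤ ENNReal.ofReal (2 * (Metric.ediam s).toReal) := by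
      refine (measure_mono h2).trans ?_
      rw [AddCircle.volume_closedBall]
      exact ENNReal.ofReal_le_ofReal (min_le_right _ _)
    calc (2 : ℝ≥0∞)⁻¹ * (volume : Measure T) s
        ≤ (2 : ℝ≥0∞)⁻¹ * ENNReal.ofReal (2 * (Metric.ediam s).toReal) := by gcongr
      _ = Metric.ediam s := by
          rw [ENNReal.ofReal_mul (by norm_num), ENNReal.ofReal_toReal hfin, ← mul_assoc]
          have : ENNReal.ofReal 2 = 2 := by simp
          rw [this, ENNReal.inv_mul_cancel (by norm_num) (by norm_num), one_mul]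
  have h2 : (Measure.hausdorffMeasure (1 : ℝ) : Measure T) E = 0 := by
    have := hausdorffMeasure_of_dimH_lt (d := 1) (s := E) (by simpa using hE)
    simpa using this
  have h3 := h1 E
  rw [h2, Measure.smul_apply, smul_eq_mul] at h3
  rcases mul_eq_zero.1 (le_antisymm h3 zero_le) with h4 | h4
  · exact absurd h4 (by simp)
  · exact h4

/-- Lebesgue almost every point has frequency one -/
lemma freq_vol (hpq : Nat.Coprime p q) : ∀ᵐ x ∂(volume : Measure T), freq p q x = 1 := by
  have h := measure_freq hp hq hpq (s := 1) (volume : Measure T) fun E hE =>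
    null_of_dimH (by simpa using hE)
  filter_upwards [h] with x hx
  exact le_antisymm (freq_le_one p q x) hx

/-- **Dichotomy.** -/
theorem dichotomy (hpq : Nat.Coprime p q) (μ : Measure T) [IsProbabilityMeasure μ]
    (hip : MeasurePreserving (fun x : T => p • x) μ μ)
    (hiq : MeasurePreserving (fun x : T => q • x) μ μ) :
    (∀ᵐ x ∂μ, freq p q x = 0 ∨ freq p q x = 1) ∧
      μ.restrict {x | 0 < freq p q x} = μ {x | 0 < freq p q x} • (volume : Measure T) := by
  obtain ⟨D, hDm, hDp, hDq, hD, B, hBm, hB0, hB⟩ := decomp hp hq hpq μ hip hiq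
  have hp' := restrict_mp hip hDm.compl (hDp.mono fun x hx => not_congr hx)
  have hq' := restrict_mp hiq hDm.compl (hDq.mono fun x hx => not_congr hx)
  have hno : ∀ c0 : ℝ, 0 < c0 → ¬ ∀ s : Set T,
      ENNReal.ofReal c0 * (volume : Measure T) s ≤ (μ.restrict Dᶜ) s := by
    intro c0 hc0 h
    have hBc : (μ.restrict Dᶜ) Bᶜ = 0 := by
      rw [Measure.restrict_apply hBm.compl]
      have : Bᶜ ∩ Dᶜ = Dᶜ \ B := by
        ext x; simp only [mem_inter_iff, mem_compl_iff, Set.mem_sdiff]; tauto
      rw [this, hB0]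
    have hvol : (volume : Measure T) Bᶜ = 0 := by
      have h2 := h Bᶜ
      rw [hBc] at h2
      rcases mul_eq_zero.1 (le_antisymm h2 zero_le) with h4 | h4
      · rw [ENNReal.ofReal_eq_zero] at h4
        linarith
      · exact h4
    have hmp : MeasurePreserving (fun x : T => x + hh p 1 1) (volume : Measure T) volume :=
      measurePreserving_add_right _ _
    have hae1 : ∀ᵐ x ∂(volume : Measure T), x ∈ B := by
      rw [ae_iff]; exact hvol
    have hae2 : ∀ᵐ x ∂(volume : Measure T), x + hh p 1 1 ∈ B := hmp.quasiMeasurePreserving.ae hae1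
    obtain ⟨x, hx1, hx2⟩ := (hae1.and hae2).exists
    exact hB x hx1 1 le_rfl (by omega) hx2
  have hz := freq_zero hp' hq' hno
  rw [ae_restrict_iff' hDm.compl] at hz
  have ho : ∀ᵐ x ∂(μ.restrict D), freq p q x = 1 := by
    rw [hD]
    exact Measure.ae_smul_measure (freq_vol hp hq hpq) _
  rw [ae_restrict_iff' hDm] at ho
  refine ⟨?_, ?_⟩
  · filter_upwards [hz, ho] with x h1 h2
    by_cases hx : x ∈ D
    · exact Or.inr (h2 hx)
    · exact Or.inl (h1 hx)
  · have heq : ({x | 0 < freq p q x} : Set T) =ᵐ[μ] D := by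
      rw [eventuallyEq_set]
      filter_upwards [hz, ho] with x h1 h2
      constructor
      · intro h3
        by_contra hx
        have h3' : 0 < freq p q x := h3
        rw [h1 hx] at h3'
        exact lt_irrefl _ h3'
      · intro hx
        show 0 < freq p q x
        rw [h2 hx]
        exact one_pos
    rw [Measure.restrict_congr_set heq, measure_congr heq, hD]

end

end Pool.Agent.K3h58.WS
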