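import Pool.Agent.K3h58.WS.Cover

/-!
The covering theorem and the upper bound of the Hausdorff dimension.
-/

set_option autoImplicit false

open MeasureTheory Filter Topology Set
open scoped ENNReal

namespace Pool.Agent.K3h58.WS

open Pool.Agent.W764.FB (T)
open Pool.Agent.W764.SH Pool.Agent.W764.HL

open Classical in
/-- the path of a point has few special levels if few windows are uniform -/
lemma nb_le {p q : ℕ} {ε H : ℝ} {L i0 k r : ℕ} (x : T) :
    nb (2 ^ L) (fun i => Bd p q ε H (r + L * (i0 + i))) k (cell (r + L * (i0 + k)) x) ≤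
      ((Finset.range k).filter fun i =>
        Low p q ε (2 ^ (r + L * (i0 + (i + 1)))) (H * 2 ^ (r + L * (i0 + (i + 1)))) x).card := by
  rw [nb_eq]
  refine Finset.card_le_card fun i hi => ?_
  rw [Finset.mem_filter] at hi ⊢
  refine ⟨hi.1, ?_⟩
  by_contra hcon
  apply hi.2
  have hik := Finset.mem_range.1 hi.1
  refine ⟨x, ?_, hcon⟩
  rw [← pow_mul]
  have e : r + L * (i0 + k) = r + L * (i0 + (i + 1)) + L * (k - (i + 1)) := by
    have : k = (i + 1) + (k - (i + 1)) := by omega
    conv_lhs => rw [this]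
    ring
  rw [e, cell_div]

open Classical in
/-- pigeonhole over the residue classes -/
lemma pigeon (P : ℕ → Prop) {L : ℕ} (hL : 1 ≤ L) (i0 n : ℕ) (k : ℕ → ℕ)
    (hk : ∀ r < L, ∀ i < k r, r + L * (i0 + (i + 1)) < n) :
    ∃ r < L, L * ((Finset.range (k r)).filter fun i => P (r + L * (i0 + (i + 1)))).card ≤
      ((Finset.range n).filter P).card := by
  set N := ((Finset.range n).filter P).card with hN
  set f : ℕ → ℕ := fun r => ((Finset.range (k r)).filter fun i => P (r + L * (i0 + (i + 1)))).card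
    with hf
  have hsum : ∑ r ∈ Finset.range L, f r ≤ N := by
    have h1 : ∑ r ∈ Finset.range L, f r = ((Finset.range L).sigma fun r =>
        (Finset.range (k r)).filter fun i => P (r + L * (i0 + (i + 1)))).card := by
      rw [Finset.card_sigma]
    rw [h1, hN]
    refine Finset.card_le_card_of_injOn (fun w => w.1 + L * (i0 + (w.2 + 1))) ?_ ?_
    · rintro ⟨r, i⟩ hw
      simp only [Finset.coe_sigma, Set.mem_sigma_iff, Finset.mem_coe, Finset.mem_range,
        Finset.mem_filter] at hw ⊢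
      exact ⟨hk r hw.1 i hw.2.1, hw.2.2⟩
    · rintro ⟨r, i⟩ hw ⟨r', i'⟩ hw' heq
      simp only [Finset.coe_sigma, Set.mem_sigma_iff, Finset.mem_coe, Finset.mem_range,
        Finset.mem_filter] at hw hw' heq
      have h2 : r = r' := by
        have h3 : (r + L * (i0 + (i + 1))) % L = (r' + L * (i0 + (i' + 1))) % L := by rw [heq]
        rwa [Nat.add_mul_mod_self_left, Nat.add_mul_mod_self_left, Nat.mod_eq_of_lt hw.1,
          Nat.mod_eq_of_lt hw'.1] at h3
      subst h2
      have h3 : L * (i0 + (i + 1)) = L * (i0 + (i' + 1)) := by omega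
      have h4 := Nat.eq_of_mul_eq_mul_left (by omega) h3
      have h5 : i = i' := by omega
      subst h5
      rfl
  by_contra hcon
  push Not at hcon
  have h2 : ∑ r ∈ Finset.range L, N < ∑ r ∈ Finset.range L, L * f r := by
    refine Finset.sum_lt_sum_of_nonempty ⟨0, Finset.mem_range.2 hL⟩ fun r hr => ?_
    exact hcon r (Finset.mem_range.1 hr)
  rw [Finset.sum_const, Finset.card_range, smul_eq_mul, ← Finset.mul_sum] at h2
  have h3 := lt_of_mul_lt_mul_left h2 (Nat.zero_le _)
  omega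

/-- fibres of the division by `M` -/
lemma card_div (N M : ℕ) (hM : 1 ≤ M) (G : Finset ℕ) :
    ((Finset.range N).filter fun a => a / M ∈ G).card ≤ M * G.card := by
  classical
  refine (Finset.card_le_mul_card_image (f := fun a => a / M) _ M fun b hb => ?_).trans ?_
  · refine (Finset.card_le_card (t := Finset.Ico (b * M) (b * M + M)) fun a ha => ?_).trans ?_
    · rw [Finset.mem_filter] at ha
      rw [Finset.mem_Ico]
      have h1 := Nat.div_add_mod a M
      have h2 := Nat.mod_lt a (by omega : 0 < M)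
      have h3 : a / M = b := ha.2
      rw [h3, mul_comm] at h1
      omega
    · rw [Nat.card_Ico]; omega
  · refine Nat.mul_le_mul_left _ (Finset.card_le_card fun b hb => ?_)
    obtain ⟨a, ha, rfl⟩ := Finset.mem_image.1 hb
    exact (Finset.mem_filter.1 ha).2

open Classical in
/-- **The covering theorem.** -/
theorem cover {p q : ℕ} (hp : 2 ≤ p) (hq : 2 ≤ q) (hpq : Nat.Coprime p q) {ε : ℝ} (hε : 0 < ε)
    {η : ℝ} (hη : 0 < η) : ∃ H0 : ℝ, 1 < H0 ∧ ∀ H : ℝ, H0 ≤ H → ∃ C : ℝ, 0 < C ∧
      ∀ c : ℝ, 0 ≤ c → ∀ n : ℕ, ∃ F : Finset ℕ,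
        (F.card : ℝ) ≤ C * (2 : ℝ) ^ ((c + η) * n) ∧
        ∀ x : T, (count p q ε H x n : ℝ) ≤ c * n → cell n x ∈ F := by
  obtain ⟨m, hm⟩ := exists_nat_gt (1 / ε)
  set D := 2 * m with hD
  obtain ⟨L, hL⟩ := pow_unbounded_of_one_lt ((D : ℝ) + 1)
    (Real.one_lt_rpow (show (1 : ℝ) < 2 by norm_num) hη)
  have hL1 : 1 ≤ L := by
    by_contra h0
    have h1 : L = 0 := by omega
    rw [h1, pow_zero] at hL
    have : (0 : ℝ) ≤ D := Nat.cast_nonneg _
    linarith
  obtain ⟨H0, hH0, hfew⟩ := few hp hq hpq hε hm (K := (2 : ℝ) ^ L)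
    (one_le_pow₀ (by norm_num))
  refine ⟨H0, hH0, fun H hH => ?_⟩
  obtain ⟨X0, hX0, hfew2⟩ := hfew H hH
  obtain ⟨j0, hj0⟩ := pow_unbounded_of_one_lt X0 (show (1 : ℝ) < 2 by norm_num)
  set i0 := j0 + 1 with hi0
  set n0 := L * (i0 + 2) with hn0
  refine ⟨L * 2 ^ L * 2 ^ n0, by positivity, fun c hc n => ?_⟩
  have hLR : (1 : ℝ) ≤ L := by exact_mod_cast hL1
  rcases Nat.lt_or_ge n n0 with hn | hn
  · refine ⟨Finset.range (2 ^ n), ?_, fun x _ => Finset.mem_range.2 (cell_lt n x)⟩
    rw [Finset.card_range]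
    push_cast
    have h1 : (2 : ℝ) ^ n ≤ 2 ^ n0 := pow_le_pow_right₀ (by norm_num) hn.le
    have h2 : (1 : ℝ) ≤ (2 : ℝ) ^ ((c + η) * n) :=
      Real.one_le_rpow (by norm_num) (by positivity)
    have h3 : (1 : ℝ) ≤ L * 2 ^ L := by
      have : (1 : ℝ) ≤ 2 ^ L := one_le_pow₀ (by norm_num)
      nlinarith
    calc (2 : ℝ) ^ n ≤ 2 ^ n0 := h1
      _ = 1 * 2 ^ n0 * 1 := by ring
      _ ≤ (L * 2 ^ L) * 2 ^ n0 * (2 : ℝ) ^ ((c + η) * n) := by gcongr
  -- the levels
  set k : ℕ → ℕ := fun r => (n - 1 - r) / L - i0 with hk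
  have hkr : ∀ r < L, i0 ≤ (n - 1 - r) / L := by
    intro r hr
    rw [Nat.le_div_iff_mul_le (by omega)]
    have : L * (i0 + 2) = i0 * L + 2 * L := by ring
    omega
  have hJ : ∀ r < L, r + L * (i0 + k r) < n ∧ n ≤ r + L * (i0 + k r) + L := by
    intro r hr
    have h1 := hkr r hr
    have h2 : i0 + k r = (n - 1 - r) / L := by
      simp only [hk]; omega
    rw [h2]
    have h3 := Nat.div_add_mod (n - 1 - r) L
    have h4 := Nat.mod_lt (n - 1 - r) (by omega : 0 < L)
    have h5 : L * (i0 + 2) = i0 * L + 2 * L := by ring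
    omega
  set J : ℕ → ℕ := fun r => r + L * (i0 + k r) with hJdef
  set g : ℕ := ⌊c * n / L⌋₊ with hg
  set G : ℕ → Finset ℕ := fun r => (Finset.range (2 ^ (r + L * i0) * (2 ^ L) ^ k r)).filter
    fun a => nb (2 ^ L) (fun i => Bd p q ε H (r + L * (i0 + i))) (k r) a ≤ g with hG
  set F : Finset ℕ := (Finset.range L).biUnion fun r =>
    (Finset.range (2 ^ n)).filter fun a => a / 2 ^ (n - J r) ∈ G r with hF
  refine ⟨F, ?_, ?_⟩
  · -- the cardinality
    have hGr : ∀ r < L, ((G r).card : ℝ) ≤ 2 ^ (L * (i0 + 1)) * (2 : ℝ) ^ ((c + η) * n) := by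
      intro r hr
      have h1 := tree_count (2 ^ L) Nat.one_le_two_pow
        (fun i => Bd p q ε H (r + L * (i0 + i))) (2 ^ (r + L * i0)) D (k r) (by
          intro j hj a ha
          have h2 := children (L := L) (m := m) (ε := ε) (H := H) (X0 := X0) (p := p) (q := q)
            (by
              intro X hX x hx
              exact hfew2 X hX x (fun i j hij => hx i j hij))
            (j' := r + L * (i0 + j)) (by
              have : 1 * 1 ≤ L * (i0 + j) := Nat.mul_le_mul hL1 (by omega)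
              omega) (by
              refine hj0.le.trans (pow_le_pow_right₀ (by norm_num) ?_)
              have : 1 * (i0 + j) ≤ L * (i0 + j) := Nat.mul_le_mul hL1 le_rfl
              omega) a
          have e : r + L * (i0 + (j + 1)) = r + L * (i0 + j) + L := by ring
          rw [e]
          exact h2) g
      refine h1.trans ?_
      have hgle : (g : ℝ) * L ≤ c * n := by
        have := Nat.floor_le (show 0 ≤ c * n / L by positivity)
        rw [le_div_iff₀ (by positivity)] at this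
        exact this
      have e1 : (((2 ^ L : ℕ) : ℝ)) ^ g ≤ (2 : ℝ) ^ (c * n) := by
        push_cast
        rw [← pow_mul, ← Real.rpow_natCast]
        refine Real.rpow_le_rpow_of_exponent_le (by norm_num) ?_
        push_cast
        linarith
      have e2 : ((D : ℝ) + 1) ^ k r ≤ (2 : ℝ) ^ (η * n) := by
        calc ((D : ℝ) + 1) ^ k r ≤ (((2 : ℝ) ^ η) ^ L) ^ k r :=
              pow_le_pow_left₀ (by positivity) hL.le _
          _ = (2 : ℝ) ^ (η * ((L * k r : ℕ) : ℝ)) := by
              rw [← pow_mul, ← Real.rpow_natCast, ← Real.rpow_mul (by norm_num)]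
          _ ≤ (2 : ℝ) ^ (η * n) := by
              refine Real.rpow_le_rpow_of_exponent_le (by norm_num) ?_
              refine mul_le_mul_of_nonneg_left ?_ hη.le
              have h3 := (hJ r hr).1
              have h4 : L * (i0 + k r) = L * i0 + L * k r := by ring
              have : L * k r ≤ n := by omega
              exact_mod_cast this
      have e3 : (((2 ^ (r + L * i0) : ℕ) : ℝ)) ≤ 2 ^ (L * (i0 + 1)) := by
        push_cast
        refine pow_le_pow_right₀ (by norm_num) ?_
        have : L * (i0 + 1) = L * i0 + L := by ring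
        omega
      have e4 : (2 : ℝ) ^ ((c + η) * n) = (2 : ℝ) ^ (c * n) * (2 : ℝ) ^ (η * n) := by
        rw [← Real.rpow_add (by norm_num)]; congr 1; ring
      rw [e4]
      calc (((2 ^ L : ℕ) : ℝ)) ^ g * (((2 ^ (r + L * i0) : ℕ) : ℝ) * ((D : ℝ) + 1) ^ k r)
          ≤ (2 : ℝ) ^ (c * n) * (2 ^ (L * (i0 + 1)) * (2 : ℝ) ^ (η * n)) := by gcongr
        _ = _ := by ring
    have h1 : (F.card : ℝ) ≤ ∑ r ∈ Finset.range L, (2 : ℝ) ^ L * (G r).card := by
      have h2 : F.card ≤ ∑ r ∈ Finset.range L, ((Finset.range (2 ^ n)).filter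
          fun a => a / 2 ^ (n - J r) ∈ G r).card := Finset.card_biUnion_le
      have h3 : ∑ r ∈ Finset.range L, ((Finset.range (2 ^ n)).filter
          fun a => a / 2 ^ (n - J r) ∈ G r).card ≤ ∑ r ∈ Finset.range L, 2 ^ L * (G r).card := by
        refine Finset.sum_le_sum fun r hr => ?_
        refine (card_div _ _ Nat.one_le_two_pow (G r)).trans ?_
        refine Nat.mul_le_mul_right _ (Nat.pow_le_pow_right (by norm_num) ?_)
        have := (hJ r (Finset.mem_range.1 hr)).2
        simp only [hJdef]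
        omega
      have h4 : ((F.card : ℕ) : ℝ) ≤ ((∑ r ∈ Finset.range L, 2 ^ L * (G r).card : ℕ) : ℝ) := by
        exact_mod_cast h2.trans h3
      refine h4.trans (le_of_eq ?_)
      push_cast
      rfl
    refine h1.trans ?_
    have h2 : ∑ r ∈ Finset.range L, (2 : ℝ) ^ L * ((G r).card : ℝ) ≤
        ∑ _r ∈ Finset.range L, (2 : ℝ) ^ L * (2 ^ n0 * (2 : ℝ) ^ ((c + η) * n)) := by
      refine Finset.sum_le_sum fun r hr => ?_
      refine mul_le_mul_of_nonneg_left ?_ (by positivity)
      refine (hGr r (Finset.mem_range.1 hr)).trans ?_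
      refine mul_le_mul_of_nonneg_right ?_ (by positivity)
      refine pow_le_pow_right₀ (by norm_num) ?_
      rw [hn0]
      exact Nat.mul_le_mul_left _ (by omega)
    refine h2.trans (le_of_eq ?_)
    rw [Finset.sum_const, Finset.card_range, nsmul_eq_mul]
    ring
  · -- the points
    intro x hx
    obtain ⟨r, hr, hr2⟩ := pigeon (fun j => Low p q ε (2 ^ j) (H * 2 ^ j) x) hL1 i0 n k (by
      intro r hr i hi
      have h1 := (hJ r hr).1
      have h2 : L * (i0 + (i + 1)) ≤ L * (i0 + k r) := Nat.mul_le_mul_left _ (by omega)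
      omega)
    have hnb : nb (2 ^ L) (fun i => Bd p q ε H (r + L * (i0 + i))) (k r) (cell (J r) x) ≤ g := by
      refine (nb_le x).trans ?_
      rw [hg, Nat.le_floor_iff (by positivity), le_div_iff₀ (by positivity)]
      have h1 : (((L * ((Finset.range (k r)).filter fun i =>
          Low p q ε (2 ^ (r + L * (i0 + (i + 1)))) (H * 2 ^ (r + L * (i0 + (i + 1)))) x).card : ℕ)
            : ℝ)) ≤ count p q ε H x n := by
        unfold count
        exact_mod_cast hr2
      push_cast at h1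
      linarith
    rw [hF, Finset.mem_biUnion]
    refine ⟨r, Finset.mem_range.2 hr, Finset.mem_filter.2 ⟨Finset.mem_range.2 (cell_lt n x), ?_⟩⟩
    have hJn := (hJ r hr).1
    have e : n = J r + (n - J r) := by simp only [hJdef]; omega
    have e2 : cell n x / 2 ^ (n - J r) = cell (J r) x := by
      conv_lhs => rw [e]
      have e3 : J r + (n - J r) - J r = n - J r := by omega
      rw [e3]
      exact cell_div _ _ _
    rw [e2, hG]
    refine Finset.mem_filter.2 ⟨Finset.mem_range.2 ?_, hnb⟩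
    have h1 := cell_lt (J r) x
    refine h1.trans_le (le_of_eq ?_)
    rw [← pow_mul, ← pow_add]
    congr 1
    simp only [hJdef]
    ring

/-- **Upper bound of the dimension.** -/
theorem dim_le {p q : ℕ} (hp : 2 ≤ p) (hq : 2 ≤ q) (hpq : Nat.Coprime p q) {ε : ℝ} (hε : 0 < ε)
    {η : ℝ} (hη : 0 < η) : ∃ H0 : ℝ, 1 < H0 ∧ ∀ H : ℝ, H0 ≤ H → ∀ c : ℝ, 0 ≤ c →
      dimH {x : T | ∃ᶠ n : ℕ in atTop, (count p q ε H x n : ℝ) ≤ c * n} ≤
        ENNReal.ofReal (c + η) := by
  classical
  obtain ⟨H0, hH0, h⟩ := cover hp hq hpq hε (η := η / 2) (by positivity)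
  refine ⟨H0, hH0, fun H hH c hc => ?_⟩
  obtain ⟨C, hC, h2⟩ := h H hH
  choose F hF1 hF2 using h2 c hc
  obtain ⟨v0, hv0⟩ := exists_nat_ge (Real.logb 2 C / (η / 2))
  refine Pool.Agent.Y314.FD.dimH_le_of_balls _
    (fun n => (F n).image fun a : ℕ => (((a : ℝ) / 2 ^ n : ℝ) : T)) (b := 1 / 2) (by norm_num)
    (by norm_num) (by positivity) (v0 := v0) ?_ ?_
  · intro v hv
    have h3 : (((F v).image fun a : ℕ => (((a : ℝ) / 2 ^ v : ℝ) : T)).card : ℝ) ≤ (F v).card := by
      exact_mod_cast Finset.card_image_le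
    refine h3.trans ((hF1 v).trans ?_)
    have e1 : ((1 : ℝ) / 2) ^ (-((c + η) * v)) = (2 : ℝ) ^ ((c + η) * v) := by
      rw [one_div, Real.inv_rpow (by norm_num), Real.rpow_neg (by norm_num), inv_inv]
    have e2 : (2 : ℝ) ^ ((c + η) * v) = (2 : ℝ) ^ (η / 2 * v) * (2 : ℝ) ^ ((c + η / 2) * v) := by
      rw [← Real.rpow_add (by norm_num)]; congr 1; ring
    rw [e1, e2]
    refine mul_le_mul_of_nonneg_right ?_ (by positivity)
    have h4 : Real.logb 2 C ≤ η / 2 * v := by
      have h5 : Real.logb 2 C / (η / 2) ≤ v := hv0.trans (by exact_mod_cast hv)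
      rw [div_le_iff₀ (by positivity)] at h5
      linarith
    calc C = (2 : ℝ) ^ Real.logb 2 C := (Real.rpow_logb (by norm_num) (by norm_num) hC).symm
      _ ≤ (2 : ℝ) ^ (η / 2 * v) := Real.rpow_le_rpow_of_exponent_le (by norm_num) h4
  · intro x hx
    refine hx.mono fun n hn => ?_
    refine ⟨_, Finset.mem_image_of_mem _ (hF2 n x hn), ?_⟩
    rw [dist_eq_norm]
    exact cell_dist n x

end Pool.Agent.K3h58.WS
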