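import Pool.Agent.K3h58.WS.Main

/-!
Points with long runs of zero digits: few windows are uniform.
-/

set_option autoImplicit false

open MeasureTheory Filter Topology Set
open scoped ENNReal

namespace Pool.Agent.K3h58.WS

open Pool.Agent.W764.FB (T)
open Pool.Agent.W764.SH Pool.Agent.W764.HL
open Pool.Agent.Y314.FD (slw mem_slw card_slw_le le_card_slw)

section
variable {p q : ℕ} (hp : 2 ≤ p) (hq : 2 ≤ q)
include hp hq

/-- number of elements of a window, upper bound -/
lemma win_card_le (hirr : Irrational (Real.log p / Real.log q)) {X H : ℝ} (hX : 1 ≤ X)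
    (hH : 1 ≤ H) : ((win p q X (H * X)).card : ℝ) ≤
      ((Real.log X + Real.log H) / Real.log p + 1) * (Real.log H / Real.log q + 1) := by
  obtain ⟨hlp, hlq⟩ := log_pos' hp hq
  have hlX := Real.log_nonneg hX
  have hlH := Real.log_nonneg hH
  rw [card_win hp hq hirr (by linarith) (by positivity), cnt]
  have e1 : Real.log (H * X) - Real.log X = Real.log H := by
    rw [Real.log_mul (by linarith) (by linarith)]; ring
  rw [e1]
  have e2 : slab (Real.log p) (Real.log q) (Real.log X) (Real.log H) =
      (slw (Real.log p) (Real.log q) (Finset.range ⌈(Real.log X + Real.log H) / Real.log p⌉₊)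
        (Real.log X) (Real.log H) : Set (ℕ × ℕ)) := by
    ext u
    rw [Finset.mem_coe, mem_slw hlp hlq, Finset.mem_range, Nat.lt_ceil, lt_div_iff₀ hlp]
    constructor
    · rintro ⟨h1, h2⟩
      refine ⟨?_, h1, h2⟩
      have : 0 ≤ (u.2 : ℝ) * Real.log q := by positivity
      linarith
    · rintro ⟨-, h1, h2⟩
      exact ⟨h1, h2⟩
  rw [e2, Set.ncard_coe_finset]
  refine (card_slw_le hlp hlq _ _ hlH).trans ?_
  rw [Finset.card_range]
  refine mul_le_mul_of_nonneg_right ?_ (by positivity)
  exact (Nat.ceil_lt_add_one (by positivity)).le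

/-- number of elements of a window, lower bound -/
lemma le_win_card (hirr : Irrational (Real.log p / Real.log q)) {X H : ℝ} (hX : 1 ≤ X)
    (hH : 1 ≤ H) (hH2 : 1 ≤ Real.log H / Real.log q) :
    Real.log X / Real.log p * (Real.log H / Real.log q - 1) ≤
      ((win p q X (H * X)).card : ℝ) := by
  obtain ⟨hlp, hlq⟩ := log_pos' hp hq
  have hlX := Real.log_nonneg hX
  have hlH := Real.log_nonneg hH
  rw [card_win hp hq hirr (by linarith) (by positivity), cnt]
  have e1 : Real.log (H * X) - Real.log X = Real.log H := by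
    rw [Real.log_mul (by linarith) (by linarith)]; ring
  rw [e1]
  have h1 := le_card_slw hlp hlq (A := Finset.range (⌊Real.log X / Real.log p⌋₊ + 1))
    (x := Real.log X) (Real.log H) (by
      intro a ha
      rw [Finset.mem_range] at ha
      have h2 : (a : ℝ) ≤ ⌊Real.log X / Real.log p⌋₊ := by exact_mod_cast (by omega)
      have h3 := Nat.floor_le (show 0 ≤ Real.log X / Real.log p by positivity)
      rw [le_div_iff₀ hlp] at h3
      have h4 : (a : ℝ) * Real.log p ≤ ⌊Real.log X / Real.log p⌋₊ * Real.log p := by gcongr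
      linarith)
  have h2 : ((slw (Real.log p) (Real.log q) (Finset.range (⌊Real.log X / Real.log p⌋₊ + 1))
      (Real.log X) (Real.log H)).card : ℝ) ≤
      ((slab (Real.log p) (Real.log q) (Real.log X) (Real.log H)).ncard : ℝ) := by
    rw [← Set.ncard_coe_finset]
    have : ((slw (Real.log p) (Real.log q) (Finset.range (⌊Real.log X / Real.log p⌋₊ + 1))
      (Real.log X) (Real.log H) : Finset (ℕ × ℕ)) : Set (ℕ × ℕ)).ncard ≤
      (slab (Real.log p) (Real.log q) (Real.log X) (Real.log H)).ncard := by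
      refine Set.ncard_le_ncard ?_ (slab_finite hlp hlq _ _)
      intro u hu
      rw [Finset.mem_coe, mem_slw hlp hlq] at hu
      exact hu.2
    exact_mod_cast this
  refine le_trans ?_ (h1.trans h2)
  refine mul_le_mul_of_nonneg_right ?_ (by linarith)
  rw [Finset.card_range]
  push_cast
  exact (Nat.lt_floor_add_one _).le

open Classical in
/-- windows in a long run of zeros are not uniform -/
lemma not_low (hirr : Irrational (Real.log p / Real.log q)) {n1 n2 : ℕ} (hn : n1 ≤ n2) {x : T}
    (hx : ‖p ^ n1 • x‖ ≤ 1 / (p : ℝ) ^ (n2 - n1)) {δ ε : ℝ} (hδ0 : 0 < δ) (hδ1 : δ ≤ 1)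
    (hε : 0 < ε) (hεδ : 36 * ε < δ) {H : ℝ} (hH : 1 ≤ H) (hH2 : 2 ≤ Real.log H / Real.log q)
    {X : ℝ} (hX : 1 ≤ X) (hX1 : (1 + δ) * (n1 * Real.log p) ≤ Real.log X)
    (hX2 : Real.log H + Real.log p ≤ Real.log X) (hX3 : H * X ≤ ε * (p : ℝ) ^ n2) :
    ¬ Low p q ε X (H * X) x := by
  obtain ⟨hlp, hlq⟩ := log_pos' hp hq
  rintro ⟨hne, hlow⟩
  set W := win p q X (H * X) with hW
  have hWR : (0 : ℝ) < W.card := by exact_mod_cast hne.card_pos
  have hp0 : (0 : ℝ) < p := by
    have : 0 < p := by omega
    exact_mod_cast this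
  have hpn : (0 : ℝ) < (p : ℝ) ^ n1 := by positivity
  set X' : ℝ := X / (p : ℝ) ^ n1 with hX'
  have hlX' : Real.log X' = Real.log X - n1 * Real.log p := by
    rw [hX', Real.log_div (by linarith) hpn.ne', Real.log_pow]
  have hn1 : 0 ≤ (n1 : ℝ) * Real.log p := by positivity
  have hX'1 : 1 ≤ X' := by
    rw [← Real.log_nonneg_iff (by positivity), hlX']
    nlinarith
  set W1 := win p q X' (H * X') with hW1
  have hdisj : vis p q X (H * X) x (((1 / 2 : ℝ)) : T) (1 / 2 - ε) + W1.card ≤ W.card := by
    unfold vis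
    have hinj : Function.Injective fun n : ℕ => p ^ n1 * n :=
      fun a b h => Nat.eq_of_mul_eq_mul_left (by positivity) h
    rw [← Finset.card_image_of_injective W1 hinj, ← Finset.card_union_of_disjoint]
    · refine Finset.card_le_card (Finset.union_subset (Finset.filter_subset _ _) ?_)
      intro n hn'
      obtain ⟨w, hw, rfl⟩ := Finset.mem_image.1 hn'
      rw [hW1, mem_win] at hw
      rw [hW, mem_win]
      obtain ⟨⟨a, b, rfl⟩, h2, h3⟩ := hw
      refine ⟨⟨n1 + a, b, by ring⟩, ?_, ?_⟩
      · rw [hX', div_le_iff₀ hpn] at h2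
        push_cast at h2 ⊢
        linarith
      · rw [hX', ← mul_div_assoc, lt_div_iff₀ hpn] at h3
        push_cast at h3 ⊢
        linarith
    · rw [Finset.disjoint_left]
      intro n hn1' hn2'
      rw [Finset.mem_filter] at hn1'
      obtain ⟨w, hw, rfl⟩ := Finset.mem_image.1 hn2'
      rw [hW1, mem_win] at hw
      obtain ⟨-, -, h3⟩ := hw
      have h4 : ‖(p ^ n1 * w) • x‖ ≤ ε := by
        have e : (p ^ n1 * w) • x = w • (p ^ n1 • x) := by
          rw [← mul_smul]; congr 1; ring
        rw [e]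
        refine (norm_nsmul_le (n := w) (a := p ^ n1 • x)).trans ?_
        have h5 : (w : ℝ) * (p : ℝ) ^ n1 ≤ ε * (p : ℝ) ^ n2 := by
          rw [hX', ← mul_div_assoc, lt_div_iff₀ hpn] at h3
          linarith
        calc (w : ℝ) * ‖p ^ n1 • x‖ ≤ w * (1 / (p : ℝ) ^ (n2 - n1)) := by gcongr
          _ ≤ ε := by
            have e2 : (p : ℝ) ^ n2 = p ^ n1 * p ^ (n2 - n1) := by
              rw [← pow_add]; congr 1; omega
            rw [mul_one_div, div_le_iff₀ (by positivity)]
            rw [e2] at h5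
            have h6 : (w : ℝ) * p ^ n1 ≤ (ε * p ^ (n2 - n1)) * p ^ n1 := by linarith
            exact le_of_mul_le_mul_right h6 hpn
      have h5 := hn1'.2
      have h6 := norm_sub_norm_le (((1 / 2 : ℝ)) : T) ((p ^ n1 * w) • x)
      rw [norm_half, norm_sub_rev] at h6
      rcases h4.lt_or_eq with h7 | h7
      · linarith
      · -- strict inequality in the window
        have h8 : (w : ℝ) * (p : ℝ) ^ n1 < ε * (p : ℝ) ^ n2 := by
          rw [hX', ← mul_div_assoc, lt_div_iff₀ hpn] at h3
          linarith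
        have h9 : ‖(p ^ n1 * w) • x‖ < ε := by
          have e : (p ^ n1 * w) • x = w • (p ^ n1 • x) := by
            rw [← mul_smul]; congr 1; ring
          rw [e]
          refine lt_of_le_of_lt (norm_nsmul_le (n := w) (a := p ^ n1 • x)) ?_
          calc (w : ℝ) * ‖p ^ n1 • x‖ ≤ w * (1 / (p : ℝ) ^ (n2 - n1)) := by gcongr
            _ < ε := by
              have e2 : (p : ℝ) ^ n2 = p ^ n1 * p ^ (n2 - n1) := by
                rw [← pow_add]; congr 1; omega
              rw [mul_one_div, div_lt_iff₀ (by positivity)]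
              rw [e2] at h8
              have h6 : (w : ℝ) * p ^ n1 < (ε * p ^ (n2 - n1)) * p ^ n1 := by linarith
              exact lt_of_mul_lt_mul_right h6 hpn.le
        linarith
  have h1 := hlow (((1 / 2 : ℝ)) : T) (1 / 2 - ε) (by linarith) (by linarith)
  have h2 : (vis p q X (H * X) x (((1 / 2 : ℝ)) : T) (1 / 2 - ε) : ℝ) + W1.card ≤ W.card := by
    exact_mod_cast hdisj
  have h3 : (W1.card : ℝ) ≤ 3 * ε * W.card := by
    have e : (2 * (1 / 2 - ε) - ε) * (W.card : ℝ) = W.card - 3 * ε * W.card := by ring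
    rw [e] at h1
    linarith
  have h4 := win_card_le hp hq hirr hX hH
  have h5 := le_win_card hp hq hirr hX'1 hH (by linarith)
  rw [← hW] at h4
  rw [← hW1, hlX'] at h5
  set x1 := Real.log X / Real.log p with hx1
  set y1 := Real.log H / Real.log q with hy1
  have hlXpos : 0 < Real.log X := by
    have := Real.log_nonneg hH
    linarith
  have hx1pos : 0 < x1 := by positivity
  have h6 : (Real.log X + Real.log H) / Real.log p + 1 ≤ 2 * x1 := by
    have e : (Real.log X + Real.log H) / Real.log p + 1 =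
        (Real.log X + (Real.log H + Real.log p)) / Real.log p := by field_simp; ring
    rw [e, hx1, div_le_iff₀ hlp]
    field_simp
    linarith
  have h7 : y1 + 1 ≤ 3 / 2 * y1 := by linarith
  have h8 : (W.card : ℝ) ≤ 3 * (x1 * y1) := by
    refine h4.trans ?_
    calc ((Real.log X + Real.log H) / Real.log p + 1) * (y1 + 1) ≤ (2 * x1) * (3 / 2 * y1) := by
          gcongr
      _ = 3 * (x1 * y1) := by ring
  have h9 : δ / 2 * x1 ≤ (Real.log X - n1 * Real.log p) / Real.log p := by
    rw [hx1, le_div_iff₀ hlp]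
    have e : δ / 2 * (Real.log X / Real.log p) * Real.log p = δ / 2 * Real.log X := by
      field_simp
    rw [e]
    have h12 : 0 ≤ (2 - δ) * (Real.log X - (1 + δ) * (n1 * Real.log p)) :=
      mul_nonneg (by linarith) (by linarith)
    have h13 : 0 ≤ δ * (1 - δ) * (n1 * Real.log p) :=
      mul_nonneg (mul_nonneg hδ0.le (by linarith)) hn1
    nlinarith
  have h10 : 1 / 2 * y1 ≤ y1 - 1 := by linarith
  have h11 : δ / 4 * (x1 * y1) ≤ W1.card := by
    refine le_trans ?_ h5
    calc δ / 4 * (x1 * y1) = (δ / 2 * x1) * (1 / 2 * y1) := by ring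
      _ ≤ (Real.log X - n1 * Real.log p) / Real.log p * (y1 - 1) := by
          refine mul_le_mul h9 h10 (by linarith) (le_trans (by positivity) h9)
  have hxy : 0 < x1 * y1 := mul_pos hx1pos (by linarith)
  nlinarith

end

end Pool.Agent.K3h58.WS
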