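import Pool.Agent.K3h58.WS.Spec

/-!
Sets of packing dimension zero, in terms of coverings; sums and generated subgroups.
-/

set_option autoImplicit false

open MeasureTheory Filter Topology Set
open scoped ENNReal Pointwise

namespace Pool.Agent.K3h58.WS

open Pool.Agent.W764.FB (T)

/-- covering numbers of order `2 ^ (d n)` at every dyadic scale -/
def Box (d : ℝ) (S : Set T) : Prop :=
  ∃ C : ℝ, ∀ n : ℕ, ∃ F : Finset T, (F.card : ℝ) ≤ C * (2 : ℝ) ^ (d * n) ∧
    ∀ x ∈ S, ∃ y ∈ F, ‖x - y‖ ≤ (1 / 2) ^ n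

/-- for every `d > 0` the set is covered by countably many sets with covering numbers of order
`2 ^ (d n)` -/
def Small (S : Set T) : Prop :=
  ∀ d : ℝ, 0 < d → ∃ U : ℕ → Set T, S ⊆ ⋃ i, U i ∧ ∀ i, Box d (U i)

lemma Box.mono {d : ℝ} {S S' : Set T} (h : Box d S) (h' : S' ⊆ S) : Box d S' := by
  obtain ⟨C, hC⟩ := h
  refine ⟨C, fun n => ?_⟩
  obtain ⟨F, hF1, hF2⟩ := hC n
  exact ⟨F, hF1, fun x hx => hF2 x (h' hx)⟩

lemma Small.mono {S S' : Set T} (h : Small S) (h' : S' ⊆ S) : Small S' := by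
  intro d hd
  obtain ⟨U, hU1, hU2⟩ := h d hd
  exact ⟨U, h'.trans hU1, hU2⟩

lemma Small.iUnion {S : ℕ → Set T} (h : ∀ i, Small (S i)) : Small (⋃ i, S i) := by
  intro d hd
  have h1 := fun i => h i d hd
  choose U hU1 hU2 using h1
  refine ⟨fun n => U (Nat.unpair n).1 (Nat.unpair n).2, ?_, fun n => hU2 _ _⟩
  intro x hx
  obtain ⟨i, hi⟩ := mem_iUnion.1 hx
  obtain ⟨j, hj⟩ := mem_iUnion.1 (hU1 i hi)
  refine mem_iUnion.2 ⟨Nat.pair i j, ?_⟩
  rw [Nat.unpair_pair]
  exact hj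

lemma small_of_cover {S : Set T} {ι : Type} [Countable ι] (h : ∀ d : ℝ, 0 < d →
    ∃ U : ι → Set T, S ⊆ ⋃ i, U i ∧ ∀ i, Box d (U i)) : Small S := by
  intro d hd
  obtain ⟨U, hU1, hU2⟩ := h d hd
  rcases isEmpty_or_nonempty ι with hι | hι
  · refine ⟨fun _ => ∅, ?_, fun _ => ⟨1, fun n => ⟨∅, by simp; positivity, by simp⟩⟩⟩
    intro x hx
    obtain ⟨i, -⟩ := mem_iUnion.1 (hU1 hx)
    exact isEmptyElim i
  · obtain ⟨f, hf⟩ := exists_surjective_nat ι
    refine ⟨fun n => U (f n), ?_, fun n => hU2 _⟩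
    intro x hx
    obtain ⟨i, hi⟩ := mem_iUnion.1 (hU1 hx)
    obtain ⟨n, rfl⟩ := hf i
    exact mem_iUnion.2 ⟨n, hi⟩

lemma small_singleton (a : T) : Small {a} := by
  intro d hd
  refine ⟨fun _ => {a}, fun x hx => mem_iUnion.2 ⟨0, hx⟩, fun _ => ⟨1, fun n => ⟨{a}, ?_, ?_⟩⟩⟩
  · rw [Finset.card_singleton, Nat.cast_one, one_mul]
    exact Real.one_le_rpow (by norm_num) (by positivity)
  · intro x hx
    refine ⟨a, Finset.mem_singleton_self a, ?_⟩
    rw [mem_singleton_iff.1 hx, sub_self, norm_zero]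
    positivity

lemma Small.union {S S' : Set T} (h : Small S) (h' : Small S') : Small (S ∪ S') := by
  have h1 : Small (⋃ i : ℕ, if i = 0 then S else S') := by
    refine Small.iUnion fun i => ?_
    split_ifs
    · exact h
    · exact h'
  refine h1.mono ?_
  rintro x (hx | hx)
  · exact mem_iUnion.2 ⟨0, by simpa using hx⟩
  · exact mem_iUnion.2 ⟨1, by simpa using hx⟩

lemma Small.neg {S : Set T} (h : Small S) : Small (-S) := by
  classical
  intro d hd
  obtain ⟨U, hU1, hU2⟩ := h d hd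
  refine ⟨fun i => -U i, ?_, fun i => ?_⟩
  · intro x hx
    obtain ⟨i, hi⟩ := mem_iUnion.1 (hU1 hx)
    exact mem_iUnion.2 ⟨i, hi⟩
  · obtain ⟨C, hC⟩ := hU2 i
    refine ⟨C, fun n => ?_⟩
    obtain ⟨F, hF1, hF2⟩ := hC n
    refine ⟨F.image fun y => -y, le_trans (by exact_mod_cast Finset.card_image_le) hF1,
      fun x hx => ?_⟩
    obtain ⟨y, hy, hxy⟩ := hF2 _ hx
    refine ⟨-y, Finset.mem_image_of_mem _ hy, ?_⟩
    have e : x - -y = -(-x - y) := by abel
    rw [e, norm_neg]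
    exact hxy

lemma Box.add {d : ℝ} {S S' : Set T} (h : Box d S) (h' : Box d S') :
    Box (2 * d) (S + S') := by
  classical
  obtain ⟨C, hC⟩ := h
  obtain ⟨C', hC'⟩ := h'
  refine ⟨|C| * |C'| * (2 : ℝ) ^ (2 * d), fun n => ?_⟩
  obtain ⟨F, hF1, hF2⟩ := hC (n + 1)
  obtain ⟨F', hF1', hF2'⟩ := hC' (n + 1)
  refine ⟨F + F', ?_, ?_⟩
  · have h1 : ((F + F').card : ℝ) ≤ F.card * F'.card := by
      exact_mod_cast Finset.card_add_le
    have h2 : (F.card : ℝ) ≤ |C| * (2 : ℝ) ^ (d * ((n + 1 : ℕ) : ℝ)) :=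
      hF1.trans (mul_le_mul_of_nonneg_right (le_abs_self C) (by positivity))
    have h3 : (F'.card : ℝ) ≤ |C'| * (2 : ℝ) ^ (d * ((n + 1 : ℕ) : ℝ)) :=
      hF1'.trans (mul_le_mul_of_nonneg_right (le_abs_self C') (by positivity))
    refine h1.trans ((mul_le_mul h2 h3 (by positivity) (by positivity)).trans (le_of_eq ?_))
    have e : (2 : ℝ) ^ (d * ((n + 1 : ℕ) : ℝ)) * (2 : ℝ) ^ (d * ((n + 1 : ℕ) : ℝ)) =
        (2 : ℝ) ^ (2 * d) * (2 : ℝ) ^ (2 * d * n) := by
      rw [← Real.rpow_add (by norm_num), ← Real.rpow_add (by norm_num)]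
      congr 1
      push_cast
      ring
    calc |C| * (2 : ℝ) ^ (d * ((n + 1 : ℕ) : ℝ)) * (|C'| * (2 : ℝ) ^ (d * ((n + 1 : ℕ) : ℝ)))
        = |C| * |C'| * ((2 : ℝ) ^ (d * ((n + 1 : ℕ) : ℝ)) * (2 : ℝ) ^ (d * ((n + 1 : ℕ) : ℝ))) := by
          ring
      _ = _ := by rw [e]; ring
  · intro x hx
    obtain ⟨a, ha, b, hb, rfl⟩ := Set.mem_add.1 hx
    obtain ⟨y, hy, hay⟩ := hF2 a ha
    obtain ⟨z, hz, hbz⟩ := hF2' b hb
    refine ⟨y + z, Finset.add_mem_add hy hz, ?_⟩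
    have e : a + b - (y + z) = (a - y) + (b - z) := by abel
    rw [e]
    refine (norm_add_le _ _).trans ?_
    have e2 : ((1 : ℝ) / 2) ^ n = (1 / 2) ^ (n + 1) + (1 / 2) ^ (n + 1) := by rw [pow_succ]; ring
    linarith

lemma Small.add {S S' : Set T} (h : Small S) (h' : Small S') : Small (S + S') := by
  refine small_of_cover (ι := ℕ × ℕ) fun d hd => ?_
  obtain ⟨U, hU1, hU2⟩ := h (d / 2) (by positivity)
  obtain ⟨V, hV1, hV2⟩ := h' (d / 2) (by positivity)
  refine ⟨fun w => U w.1 + V w.2, ?_, fun w => ?_⟩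
  · intro x hx
    obtain ⟨a, ha, b, hb, rfl⟩ := Set.mem_add.1 hx
    obtain ⟨i, hi⟩ := mem_iUnion.1 (hU1 ha)
    obtain ⟨j, hj⟩ := mem_iUnion.1 (hV1 hb)
    exact mem_iUnion.2 ⟨(i, j), Set.add_mem_add hi hj⟩
  · have := Box.add (hU2 w.1) (hV2 w.2)
    rwa [mul_div_cancel₀ _ (two_ne_zero)] at this

/-- the subgroup generated by a small set is small -/
theorem Small.closure {S : Set T} (h : Small S) : Small (AddSubgroup.closure S : Set T) := by
  set S1 : Set T := (S ∪ -S) ∪ {0} with hS1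
  have h1 : Small S1 := (h.union h.neg).union (small_singleton 0)
  set K : ℕ → Set T := fun k => Nat.rec {0} (fun _ A => A + S1) k with hK
  have hK0 : K 0 = {0} := rfl
  have hKs : ∀ k, K (k + 1) = K k + S1 := fun k => rfl
  have hsmall : ∀ k, Small (K k) := by
    intro k
    induction k with
    | zero => rw [hK0]; exact small_singleton 0
    | succ k ih => rw [hKs]; exact ih.add h1
  have hadd : ∀ k l, K k + K l ⊆ K (k + l) := by
    intro k l
    induction l with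
    | zero => rw [hK0, add_zero]; simp
    | succ l ih =>
      rw [hKs, ← add_assoc, ← add_assoc, hKs]
      exact Set.add_subset_add_right ih
  have hneg : ∀ k, ∀ x ∈ K k, -x ∈ K k := by
    intro k
    induction k with
    | zero => rw [hK0]; intro x hx; rw [mem_singleton_iff.1 hx, neg_zero]; rfl
    | succ k ih =>
      rw [hKs]
      intro x hx
      obtain ⟨a, ha, b, hb, rfl⟩ := Set.mem_add.1 hx
      rw [neg_add]
      refine Set.add_mem_add (ih a ha) ?_
      rcases hb with (hb | hb) | hb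
      · exact Or.inl (Or.inr (by rwa [Set.mem_neg, neg_neg]))
      · exact Or.inl (Or.inl hb)
      · exact Or.inr (by rw [mem_singleton_iff.1 hb, neg_zero]; rfl)
  refine (Small.iUnion hsmall).mono ?_
  intro x hx
  rw [SetLike.mem_coe] at hx
  induction hx using AddSubgroup.closure_induction with
  | mem x hx =>
    refine mem_iUnion.2 ⟨0 + 1, ?_⟩
    rw [hKs, hK0]
    exact Set.mem_add.2 ⟨0, rfl, x, Or.inl (Or.inl hx), zero_add x⟩
  | zero => exact mem_iUnion.2 ⟨0, rfl⟩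
  | add x y _ _ ihx ihy =>
    obtain ⟨k, hk⟩ := mem_iUnion.1 ihx
    obtain ⟨l, hl⟩ := mem_iUnion.1 ihy
    exact mem_iUnion.2 ⟨k + l, hadd k l (Set.add_mem_add hk hl)⟩
  | neg x _ ihx =>
    obtain ⟨k, hk⟩ := mem_iUnion.1 ihx
    exact mem_iUnion.2 ⟨k, hneg k x hk⟩

/-- small sets have Hausdorff dimension zero -/
theorem Small.dimH {S : Set T} (h : Small S) : dimH S = 0 := by
  have key : ∀ d : ℝ, 0 < d → _root_.dimH S ≤ ENNReal.ofReal (2 * d) := by
    intro d hd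
    obtain ⟨U, hU1, hU2⟩ := h d hd
    refine (dimH_mono hU1).trans ?_
    rw [dimH_iUnion]
    refine iSup_le fun i => ?_
    obtain ⟨C, hC⟩ := hU2 i
    choose F hF1 hF2 using hC
    obtain ⟨v0, hv0⟩ := exists_nat_ge (Real.logb 2 (|C| + 1) / d)
    refine Pool.Agent.Y314.FD.dimH_le_of_balls _ F (b := 1 / 2) (by norm_num)
      (by norm_num) (by positivity) (v0 := v0) ?_ ?_
    · intro v hv
      refine (hF1 v).trans ?_
      have e1 : ((1 : ℝ) / 2) ^ (-(2 * d * v)) = (2 : ℝ) ^ (2 * d * v) := by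
        rw [one_div, Real.inv_rpow (by norm_num), Real.rpow_neg (by norm_num), inv_inv]
      have e2 : (2 : ℝ) ^ (2 * d * v) = (2 : ℝ) ^ (d * v) * (2 : ℝ) ^ (d * v) := by
        rw [← Real.rpow_add (by norm_num)]; congr 1; ring
      rw [e1, e2]
      refine mul_le_mul_of_nonneg_right ?_ (by positivity)
      have h4 : Real.logb 2 (|C| + 1) ≤ d * v := by
        have h5 : Real.logb 2 (|C| + 1) / d ≤ v := hv0.trans (by exact_mod_cast hv)
        rw [div_le_iff₀ hd] at h5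
        linarith
      calc C ≤ |C| + 1 := by linarith [le_abs_self C]
        _ = (2 : ℝ) ^ Real.logb 2 (|C| + 1) :=
          (Real.rpow_logb (by norm_num) (by norm_num) (by positivity)).symm
        _ ≤ (2 : ℝ) ^ (d * v) := Real.rpow_le_rpow_of_exponent_le (by norm_num) h4
    · intro x hx
      refine Frequently.mono (Eventually.frequently (Eventually.of_forall
        (fun n : ℕ => hF2 n x hx))) fun n hn => ?_
      obtain ⟨y, hy, hxy⟩ := hn
      exact ⟨y, hy, by rw [dist_eq_norm]; exact hxy⟩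
  have h2 : Tendsto (fun k : ℕ => ENNReal.ofReal (2 * (1 / ((k : ℝ) + 1)))) atTop
      (𝓝 (ENNReal.ofReal (2 * 0))) :=
    ENNReal.tendsto_ofReal (tendsto_const_nhds.mul tendsto_one_div_add_atTop_nhds_zero_nat)
  rw [mul_zero, ENNReal.ofReal_zero] at h2
  exact le_antisymm (ge_of_tendsto' h2 fun k => key _ (by positivity)) zero_le

end Pool.Agent.K3h58.WS
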