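import Pool.Agent.K3h58.WS.NonUni

/-!
The frequency of the uniform windows, and its dimension spectrum.
-/

set_option autoImplicit false

open MeasureTheory Filter Topology Set
open scoped ENNReal

namespace Pool.Agent.K3h58.WS

open Pool.Agent.W764.FB (T)
open Pool.Agent.W764.SH Pool.Agent.W764.HL
open Pool.Agent.Y314.FD (cantor free free_dim zero_run)

/-- at least a proportion `c` of the windows are uniform -/
def AtLeast (p q : ℕ) (x : T) (c : ℝ) : Prop :=
  ∀ ε : ℝ, 0 < ε → ∃ H0 : ℕ, ∀ H : ℕ, H0 ≤ H → ∀ᶠ n : ℕ in atTop,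
    (c - ε) * n ≤ (count p q ε H x n : ℝ)

/-- the frequency of the uniform windows -/
noncomputable def freq (p q : ℕ) (x : T) : ℝ := sSup {c : ℝ | AtLeast p q x c}

lemma count_le (p q : ℕ) (ε H : ℝ) (x : T) (n : ℕ) : count p q ε H x n ≤ n := by
  classical
  unfold count
  exact (Finset.card_filter_le _ _).trans (by rw [Finset.card_range])

lemma count_mono {p q : ℕ} {ε ε' : ℝ} (h : ε ≤ ε') (H : ℝ) (x : T) (n : ℕ) :
    count p q ε H x n ≤ count p q ε' H x n := by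
  classical
  unfold count
  refine Finset.card_le_card fun j hj => ?_
  rw [Finset.mem_filter] at hj ⊢
  exact ⟨hj.1, hj.2.mono h⟩

lemma atLeast_zero (p q : ℕ) (x : T) : AtLeast p q x 0 := by
  intro ε hε
  refine ⟨0, fun H _ => Eventually.of_forall fun n => ?_⟩
  have h1 : (0 : ℝ) ≤ n := Nat.cast_nonneg n
  have h2 : (0 : ℝ) ≤ count p q ε H x n := Nat.cast_nonneg _
  nlinarith

lemma AtLeast.le_one {p q : ℕ} {x : T} {c : ℝ} (h : AtLeast p q x c) : c ≤ 1 := by
  refine le_of_forall_pos_le_add fun ε hε => ?_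
  obtain ⟨H0, hH0⟩ := h ε hε
  obtain ⟨n, hn, hn1⟩ := ((hH0 H0 le_rfl).and (eventually_ge_atTop 1)).exists
  have h1 : (count p q ε H0 x n : ℝ) ≤ n := by exact_mod_cast count_le p q ε H0 x n
  have h2 : (0 : ℝ) < n := by exact_mod_cast hn1
  have h3 : (c - ε) * n ≤ 1 * n := by linarith
  have h4 := le_of_mul_le_mul_right h3 h2
  linarith

lemma bdd (p q : ℕ) (x : T) : BddAbove {c : ℝ | AtLeast p q x c} :=
  ⟨1, fun _ hc => hc.le_one⟩

lemma freq_nonneg (p q : ℕ) (x : T) : 0 ≤ freq p q x := le_csSup (bdd p q x) (atLeast_zero p q x)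

lemma freq_le_one (p q : ℕ) (x : T) : freq p q x ≤ 1 :=
  csSup_le ⟨0, atLeast_zero p q x⟩ fun _ hc => hc.le_one

/-- the supremum is attained -/
lemma atLeast_iff {p q : ℕ} {x : T} {c : ℝ} : AtLeast p q x c ↔ c ≤ freq p q x := by
  refine ⟨fun h => le_csSup (bdd p q x) h, fun h ε hε => ?_⟩
  have h1 : c - ε / 2 < freq p q x := by linarith
  obtain ⟨c1, hc1, hc1'⟩ := exists_lt_of_lt_csSup ⟨0, atLeast_zero p q x⟩ h1
  obtain ⟨H0, hH0⟩ := hc1 (ε / 2) (by positivity)
  refine ⟨H0, fun H hH => (hH0 H hH).mono fun n hn => ?_⟩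
  have h2 : (count p q (ε / 2) H x n : ℝ) ≤ count p q ε H x n := by
    exact_mod_cast count_mono (by linarith) _ _ _
  refine le_trans ?_ (hn.trans h2)
  exact mul_le_mul_of_nonneg_right (by linarith) (Nat.cast_nonneg n)

section
variable {p q : ℕ} (hp : 2 ≤ p) (hq : 2 ≤ q)
include hp hq

/-- **Upper bound.** -/
theorem dim_lt (hpq : Nat.Coprime p q) {c : ℝ} (_hc : 0 ≤ c) :
    dimH {x : T | freq p q x < c} ≤ ENNReal.ofReal c := by
  have h := fun k : ℕ => dim_le hp hq hpq (ε := 1 / ((k : ℝ) + 1)) (by positivity)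
    (η := 1 / ((k : ℝ) + 1)) (by positivity)
  choose H0 hH0 h using h
  have hsub : {x : T | freq p q x < c} ⊆ ⋃ k : ℕ, ⋃ H : ℕ, ⋃ _ : H0 k ≤ H ∧ 0 ≤ c - 1 / ((k : ℝ) + 1),
      {x : T | ∃ᶠ n : ℕ in atTop, (count p q (1 / ((k : ℝ) + 1)) H x n : ℝ) ≤
        (c - 1 / ((k : ℝ) + 1)) * n} := by
    intro x hx
    have h1 : ¬ AtLeast p q x c := fun hc' => absurd (atLeast_iff.1 hc') (not_le.2 hx)
    unfold AtLeast at h1
    push Not at h1
    obtain ⟨ε, hε, h2⟩ := h1
    obtain ⟨k, hk⟩ := exists_nat_one_div_lt hε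
    obtain ⟨H1, hH1⟩ := exists_nat_ge (H0 k)
    obtain ⟨H, hH, h3⟩ := h2 H1
    simp only [mem_iUnion]
    have h4 : ∃ᶠ n : ℕ in atTop, (count p q (1 / ((k : ℝ) + 1)) H x n : ℝ) ≤
        (c - 1 / ((k : ℝ) + 1)) * n := by
      refine h3.mono fun n hn => ?_
      have h5 : (count p q (1 / ((k : ℝ) + 1)) H x n : ℝ) ≤ count p q ε H x n := by
        exact_mod_cast count_mono hk.le _ _ _
      refine h5.trans (hn.le.trans ?_)
      gcongr
    refine ⟨k, H, ⟨hH1.trans (by exact_mod_cast hH), ?_⟩, h4⟩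
    obtain ⟨n, hn, hn1⟩ := (h4.and_eventually (eventually_ge_atTop 1)).exists
    have h5 : (0 : ℝ) < n := by exact_mod_cast hn1
    have h6 : (0 : ℝ) ≤ count p q (1 / ((k : ℝ) + 1)) H x n := Nat.cast_nonneg _
    by_contra hneg
    push Not at hneg
    have := mul_neg_of_neg_of_pos hneg h5
    linarith
  refine (dimH_mono hsub).trans ?_
  rw [dimH_iUnion]
  refine iSup_le fun k => ?_
  rw [dimH_iUnion]
  refine iSup_le fun H => ?_
  by_cases hH : H0 k ≤ H ∧ 0 ≤ c - 1 / ((k : ℝ) + 1)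
  · have e : (⋃ _ : H0 k ≤ H ∧ 0 ≤ c - 1 / ((k : ℝ) + 1),
      {x : T | ∃ᶠ n : ℕ in atTop, (count p q (1 / ((k : ℝ) + 1)) H x n : ℝ) ≤
        (c - 1 / ((k : ℝ) + 1)) * n}) = {x : T | ∃ᶠ n : ℕ in atTop,
          (count p q (1 / ((k : ℝ) + 1)) H x n : ℝ) ≤ (c - 1 / ((k : ℝ) + 1)) * n} := iSup_pos hH
    rw [e]
    have h1 := h k H hH.1 (c - 1 / ((k : ℝ) + 1)) hH.2
    rwa [sub_add_cancel] at h1
  · have e : (⋃ _ : H0 k ≤ H ∧ 0 ≤ c - 1 / ((k : ℝ) + 1),
      {x : T | ∃ᶠ n : ℕ in atTop, (count p q (1 / ((k : ℝ) + 1)) H x n : ℝ) ≤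
        (c - 1 / ((k : ℝ) + 1)) * n}) = ∅ := iSup_neg hH
    rw [e, dimH_empty]
    exact zero_le

/-- **Upper bound, closed form.** -/
theorem dim_upper (hpq : Nat.Coprime p q) {c : ℝ} (hc : 0 ≤ c) :
    dimH {x : T | freq p q x ≤ c} ≤ ENNReal.ofReal c := by
  have h1 : ∀ k : ℕ, dimH {x : T | freq p q x ≤ c} ≤ ENNReal.ofReal (c + 1 / ((k : ℝ) + 1)) := by
    intro k
    refine (dimH_mono ?_).trans (dim_lt hp hq hpq (c := c + 1 / ((k : ℝ) + 1)) (by positivity))
    intro x hx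
    have : (0 : ℝ) < 1 / ((k : ℝ) + 1) := by positivity
    have hx' : freq p q x ≤ c := hx
    show freq p q x < c + 1 / ((k : ℝ) + 1)
    linarith
  have h2 : Tendsto (fun k : ℕ => ENNReal.ofReal (c + 1 / ((k : ℝ) + 1))) atTop
      (𝓝 (ENNReal.ofReal (c + 0))) :=
    ENNReal.tendsto_ofReal (tendsto_const_nhds.add tendsto_one_div_add_atTop_nhds_zero_nat)
  rw [add_zero] at h2
  exact ge_of_tendsto' h2 h1

/-- few uniform windows at the end of the runs of zeros -/
lemma run_count (hirr : Irrational (Real.log p / Real.log q)) {n1 n2 : ℕ} (hn : n1 ≤ n2) {x : T}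
    (hx : ‖p ^ n1 • x‖ ≤ 1 / (p : ℝ) ^ (n2 - n1)) {δ ε : ℝ} (hδ0 : 0 < δ) (hδ1 : δ ≤ 1)
    (hε : 0 < ε) (hεδ : 36 * ε < δ) {H : ℝ} (hH : 1 ≤ H) (hH2 : 2 ≤ Real.log H / Real.log q)
    (N : ℕ) (hN : N * Real.log 2 ≤ n2 * Real.log p) :
    (count p q ε H x N : ℝ) ≤ ((1 + δ) * (n1 * Real.log p) + (Real.log H + Real.log p) +
      Real.log (H / ε)) / Real.log 2 + 3 := by
  classical
  obtain ⟨hlp, hlq⟩ := log_pos' hp hq
  have hl2 : 0 < Real.log 2 := Real.log_pos (by norm_num)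
  have hlH := Real.log_nonneg hH
  have hHε : 1 ≤ H / ε := by
    rw [le_div_iff₀ hε]; linarith
  have hlHε := Real.log_nonneg hHε
  set A := (1 + δ) * (n1 * Real.log p) with hA
  have hA0 : 0 ≤ A := by positivity
  set B := Real.log H + Real.log p with hB
  set C := Real.log (H / ε) with hC
  have hp0 : (0 : ℝ) < p := by
    have : 0 < p := by omega
    exact_mod_cast this
  have hsub : ((Finset.range N).filter fun j => Low p q ε (2 ^ j) (H * 2 ^ j) x) ⊆
      Finset.range ⌈A / Real.log 2⌉₊ ∪ (Finset.range ⌈B / Real.log 2⌉₊ ∪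
        Finset.Ico (N - ⌈C / Real.log 2⌉₊) N) := by
    intro j hj
    rw [Finset.mem_filter, Finset.mem_range] at hj
    obtain ⟨hjN, hj⟩ := hj
    by_contra hcon
    simp only [Finset.mem_union, Finset.mem_range, Finset.mem_Ico, not_or, not_lt, not_and] at hcon
    obtain ⟨h1, h2, h3⟩ := hcon
    have h4 : A ≤ j * Real.log 2 := by
      have : A / Real.log 2 ≤ j := Nat.ceil_le.1 h1
      rwa [div_le_iff₀ hl2] at this
    have h5 : B ≤ j * Real.log 2 := by
      have : B / Real.log 2 ≤ j := Nat.ceil_le.1 h2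
      rwa [div_le_iff₀ hl2] at this
    have h6 : j + ⌈C / Real.log 2⌉₊ ≤ N := by
      by_contra h7
      have := h3 (by omega)
      omega
    have h7 : j * Real.log 2 + C ≤ n2 * Real.log p := by
      have h8 : (j : ℝ) + ⌈C / Real.log 2⌉₊ ≤ N := by exact_mod_cast h6
      have h9 : C / Real.log 2 ≤ ⌈C / Real.log 2⌉₊ := Nat.le_ceil _
      rw [div_le_iff₀ hl2] at h9
      nlinarith
    refine not_low hp hq hirr hn hx hδ0 hδ1 hε hεδ hH hH2 (X := 2 ^ j)
      (one_le_pow₀ (by norm_num)) ?_ ?_ ?_ hj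
    · rw [Real.log_pow]; exact h4
    · rw [Real.log_pow]; exact h5
    · rw [← Real.log_le_log_iff (by positivity) (by positivity),
        Real.log_mul (by positivity) (by positivity), Real.log_mul hε.ne' (by positivity),
        Real.log_pow, Real.log_pow]
      rw [hC, Real.log_div (by positivity) hε.ne'] at h7
      linarith
  unfold count
  have h1 := (Finset.card_le_card hsub).trans ((Finset.card_union_le _ _).trans
    (Nat.add_le_add_left (Finset.card_union_le _ _) _))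
  rw [Finset.card_range, Finset.card_range, Nat.card_Ico] at h1
  have h2 : (((Finset.range N).filter fun j => Low p q ε (2 ^ j) (H * 2 ^ j) x).card : ℝ) ≤
      ⌈A / Real.log 2⌉₊ + (⌈B / Real.log 2⌉₊ + ⌈C / Real.log 2⌉₊) := by
    have h3 : N - (N - ⌈C / Real.log 2⌉₊) ≤ ⌈C / Real.log 2⌉₊ := by omega
    exact_mod_cast h1.trans (Nat.add_le_add_left (Nat.add_le_add_left h3 _) _)
  have h3 := Nat.ceil_lt_add_one (show 0 ≤ A / Real.log 2 by positivity)
  have h4 := Nat.ceil_lt_add_one (show 0 ≤ B / Real.log 2 by positivity)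
  have h5 := Nat.ceil_lt_add_one (show 0 ≤ C / Real.log 2 by positivity)
  have e : (A + B + C) / Real.log 2 + 3 =
      (A / Real.log 2 + 1) + ((B / Real.log 2 + 1) + (C / Real.log 2 + 1)) := by ring
  rw [e]
  linarith

/-- points with long runs of zeros have a small frequency -/
lemma cantor_freq (hpq : Nat.Coprime p q) {R a b G : ℕ}
    [NeZero (p ^ (R + 1))] (hbm : 2 * p ^ R ≤ p ^ (R + 1)) (ha : 1 ≤ a) (hab : a < b) (hG : 2 ≤ G)
    {x : T} (hx : x ∈ cantor (m := p ^ (R + 1)) (b := p ^ R) hbm (free a b G)) :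
    freq p q x ≤ a / b := by
  have hirr := irr_of_coprime hp hq hpq
  obtain ⟨hlp, hlq⟩ := log_pos' hp hq
  have hl2 : 0 < Real.log 2 := Real.log_pos (by norm_num)
  have hbR : (0 : ℝ) < b := by
    have : 0 < b := by omega
    exact_mod_cast this
  have haR : (0 : ℝ) < a := by exact_mod_cast ha
  refine csSup_le ⟨0, atLeast_zero p q x⟩ fun c hc => ?_
  have hc' : AtLeast p q x c := hc
  -- it is enough to prove the inequality up to `4 δ`
  refine le_of_forall_pos_le_add fun e he => ?_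
  set δ : ℝ := min 1 (e / 4) with hδ
  have hδ0 : 0 < δ := by positivity
  have hδ1 : δ ≤ 1 := min_le_left _ _
  have hδe : δ ≤ e / 4 := min_le_right _ _
  set ε : ℝ := δ / 40 with hε
  have hε0 : 0 < ε := by positivity
  have hεδ : 36 * ε < δ := by rw [hε]; linarith
  obtain ⟨H0, hH0⟩ := hc' ε hε0
  obtain ⟨H1, hH1⟩ := exists_nat_ge (Real.exp (2 * Real.log q))
  set H : ℕ := max H0 (max 1 H1) with hH
  have hHR1 : (1 : ℝ) ≤ H := by
    have : 1 ≤ H := (le_max_left _ _).trans (le_max_right _ _)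
    exact_mod_cast this
  have hHR2 : 2 ≤ Real.log H / Real.log q := by
    rw [le_div_iff₀ hlq]
    have h1 : Real.exp (2 * Real.log q) ≤ H := by
      refine hH1.trans ?_
      have : H1 ≤ H := (le_max_right _ _).trans (le_max_right _ _)
      exact_mod_cast this
    exact (Real.le_log_iff_exp_le (by linarith)).2 h1
  have hev := hH0 H (le_max_left _ _)
  obtain ⟨N0, hN0⟩ := eventually_atTop.1 hev
  set Cst : ℝ := ((Real.log H + Real.log p) + Real.log (H / ε)) / Real.log 2 + 3 with hCst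
  -- the ratio of the logarithms
  set κ : ℝ := Real.log p / Real.log 2 with hκ
  have hκ1 : 1 ≤ κ := by
    rw [hκ, le_div_iff₀ hl2, one_mul]
    exact Real.log_le_log (by norm_num) (by exact_mod_cast hp)
  obtain ⟨k1, hk1⟩ := exists_nat_ge ((Cst + 3) / δ)
  set k := k1 + N0 + 1 with hk
  have hGk : k < G ^ k := Nat.lt_pow_self (by omega)
  set n1 := (R + 1) * (a * G ^ k) with hn1
  set n2 := (R + 1) * (b * G ^ k) with hn2
  have hn12 : n1 ≤ n2 := Nat.mul_le_mul_left _ (Nat.mul_le_mul_right _ hab.le)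
  have hn2k : k < n2 := by
    have h1 : G ^ k ≤ b * G ^ k := Nat.le_mul_of_pos_left _ (by omega)
    have h2 : b * G ^ k ≤ (R + 1) * (b * G ^ k) := Nat.le_mul_of_pos_left _ (by omega)
    omega
  have hrun := zero_run hp hbm hx k
  have hexp : (R + 1) * (b * G ^ k - a * G ^ k) = n2 - n1 := by rw [Nat.mul_sub]
  rw [hexp] at hrun
  set N := ⌊(n2 : ℝ) * κ⌋₊ with hN
  have hNle : (N : ℝ) ≤ n2 * κ := Nat.floor_le (by positivity)
  have hNlt : (n2 : ℝ) * κ < N + 1 := Nat.lt_floor_add_one _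
  have hNlog : (N : ℝ) * Real.log 2 ≤ n2 * Real.log p := by
    have h1 : (N : ℝ) * Real.log 2 ≤ n2 * κ * Real.log 2 := by gcongr
    have h2 : n2 * κ * Real.log 2 = n2 * Real.log p := by rw [hκ]; field_simp
    linarith
  have h1 := run_count hp hq hirr hn12 hrun hδ0 hδ1 hε0 hεδ hHR1 hHR2 N hNlog
  have hn2N : (n2 : ℝ) - 1 ≤ N := by
    have h2 : (n2 : ℝ) * 1 ≤ n2 * κ := by gcongr
    linarith
  have hkn2 : (k : ℝ) + 1 ≤ n2 := by exact_mod_cast hn2k
  have hkR : (k : ℝ) = k1 + N0 + 1 := by rw [hk]; push_cast; ring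
  have hN00 : (0 : ℝ) ≤ N0 := Nat.cast_nonneg _
  have hk10 : (0 : ℝ) ≤ k1 := Nat.cast_nonneg _
  have hNN0 : N0 ≤ N := by
    have : (N0 : ℝ) ≤ N := by linarith
    exact_mod_cast this
  have h2 := hN0 N hNN0
  have hNpos : (0 : ℝ) < N := by linarith
  have h3 : ((1 + δ) * (n1 * Real.log p) + (Real.log H + Real.log p) + Real.log (H / ε)) /
      Real.log 2 + 3 = (1 + δ) * (n1 * κ) + Cst := by
    rw [hκ, hCst]; field_simp; ring
  rw [h3] at h1
  have hn1R : (n1 : ℝ) = a / b * n2 := by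
    rw [hn1, hn2]; push_cast; field_simp
  have h4 : (n1 : ℝ) * κ ≤ a / b * (N + 1) := by
    rw [hn1R, mul_assoc]
    gcongr
  have hab1 : (a : ℝ) / b ≤ 1 := by
    rw [div_le_one hbR]; exact_mod_cast hab.le
  have h5 : (1 + δ) * (n1 * κ) ≤ (1 + δ) * (a / b) * N + 2 := by
    calc (1 + δ) * (n1 * κ) ≤ (1 + δ) * (a / b * (N + 1)) := by gcongr
      _ = (1 + δ) * (a / b) * N + (1 + δ) * (a / b) := by ring
      _ ≤ (1 + δ) * (a / b) * N + (1 + 1) * 1 := by gcongr
      _ = _ := by ring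
  have h6 : Cst + 3 ≤ δ * N := by
    rw [div_le_iff₀ hδ0] at hk1
    have : (k1 : ℝ) ≤ N := by linarith
    nlinarith
  have h7 : (c - ε) * N ≤ ((1 + δ) * (a / b) + δ) * N := by
    have e1 : ((1 + δ) * (a / b) + δ) * N = (1 + δ) * (a / b) * N + δ * N := by ring
    rw [e1]
    linarith
  have h8 := le_of_mul_le_mul_right h7 hNpos
  have h9 : (1 + δ) * ((a : ℝ) / b) ≤ a / b + δ := by
    have : δ * ((a : ℝ) / b) ≤ δ * 1 := by gcongr
    linarith
  rw [hε] at h8
  linarith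

/-- **Lower bound.** -/
theorem dim_lower (hpq : Nat.Coprime p q) {s : ℝ} (hs1 : s ≤ 1) :
    ENNReal.ofReal s ≤ dimH {x : T | freq p q x ≤ s} := by
  refine le_of_forall_lt_imp_le_of_dense fun c hc => ?_
  have hcfin : c ≠ ∞ := ne_top_of_lt hc
  set c' : ℝ := c.toReal with hc'
  have hc'0 : 0 ≤ c' := ENNReal.toReal_nonneg
  have hc's : c' < s := by
    rw [← ENNReal.ofReal_toReal hcfin] at hc
    exact (ENNReal.ofReal_lt_ofReal_iff_of_nonneg hc'0).1 hc
  obtain ⟨w, hw1, hw2⟩ := exists_rat_btwn hc's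
  have hw0 : (0 : ℝ) < w := lt_of_le_of_lt hc'0 hw1
  have hw0' : 0 < w := by exact_mod_cast hw0
  have hnum : 0 < w.num := Rat.num_pos.2 hw0'
  set a : ℕ := w.num.toNat with ha
  set b : ℕ := w.den with hb
  have haR : (a : ℝ) = w.num := by
    have : ((w.num.toNat : ℕ) : ℤ) = w.num := Int.toNat_of_nonneg hnum.le
    exact_mod_cast this
  have hab : (w : ℝ) = a / b := by
    rw [haR]; exact_mod_cast (Rat.num_div_den w).symm
  have ha1 : 1 ≤ a := by omega
  have hb1 : 0 < b := w.den_pos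
  have hbR : (0 : ℝ) < b := by exact_mod_cast hb1
  have hablt : a < b := by
    have h1 : (a : ℝ) / b < 1 := by rw [← hab]; linarith
    rw [div_lt_one hbR] at h1
    exact_mod_cast h1
  have haRp : (0 : ℝ) < a := by exact_mod_cast ha1
  obtain ⟨G0, hG0⟩ := exists_nat_ge (2 / ((w : ℝ) - c'))
  set G : ℕ := G0 + b + 2 with hG
  have hGR : 2 / ((w : ℝ) - c') ≤ G := by
    refine hG0.trans ?_
    exact_mod_cast (by omega : G0 ≤ G)
  have hGpos : (0 : ℝ) < G := by
    have : 0 < G := by omega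
    exact_mod_cast this
  have hGb : b < G * a := by
    calc b < G := by omega
      _ = G * 1 := (mul_one G).symm
      _ ≤ G * a := Nat.mul_le_mul_left _ ha1
  have hne : NeZero (p ^ (G + 1)) := ⟨by positivity⟩
  have hbm : 2 * p ^ G ≤ p ^ (G + 1) := by
    have e : p ^ (G + 1) = p * p ^ G := pow_succ' _ _
    rw [e]
    exact Nat.mul_le_mul_right _ hp
  have h1 := free_dim (G := G) ha1 hablt hGb (p := p) (R := G) hp (by omega) hbm
  have h2 : cantor (m := p ^ (G + 1)) (b := p ^ G) hbm (free a b G) ⊆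
      {x : T | freq p q x ≤ s} := by
    intro x hx
    have h3 := cantor_freq hp hq hpq hbm ha1 hablt (by omega) hx
    show freq p q x ≤ s
    rw [← hab] at h3
    linarith
  refine le_trans ?_ (h1.trans (dimH_mono h2))
  rw [← ENNReal.ofReal_toReal hcfin]
  apply ENNReal.ofReal_le_ofReal
  rw [← hc']
  have hwc : 0 < (w : ℝ) - c' := by linarith
  have h3 : 2 / (G : ℝ) ≤ w - c' := by
    rw [div_le_iff₀ hwc] at hGR
    rw [div_le_iff₀ hGpos]
    linarith
  have hw1' : (w : ℝ) ≤ 1 := by linarith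
  have h4 : (G : ℝ) * (G * a - b) / ((G + 1) * (G * b)) = G / (G + 1) * (w - 1 / G) := by
    rw [hab]; field_simp
  rw [h4]
  have h5 : (G : ℝ) / (G + 1) * (w - 1 / G) = w - (w + 1) / (G + 1) := by
    field_simp
    ring
  rw [h5]
  have h6 : ((w : ℝ) + 1) / (G + 1) ≤ 2 / G := by
    rw [div_le_div_iff₀ (by positivity) hGpos]
    nlinarith
  linarith

/-- **The spectrum.** -/
theorem spectrum (hpq : Nat.Coprime p q) {c : ℝ} (hc0 : 0 ≤ c) (hc1 : c ≤ 1) :
    dimH {x : T | freq p q x ≤ c} = ENNReal.ofReal c :=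
  le_antisymm (dim_upper hp hq hpq hc0) (dim_lower hp hq hpq hc1)

end

end Pool.Agent.K3h58.WS
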